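import Pool.Agent.N282.PB.Stm
import Pool.Agent.N282.LU.Bon

/-!
# Project PB: Bonami's inequality for a family of integers (helper694, after helper945)
-/

set_option autoImplicit false

open Finset

namespace Pool.Agent.N282.PB

open Pool.Agent.N282.GC Pool.Agent.N282.LU

theorem bg_isSquare {B T : ℕ} (hB : 0 < B) (h : IsSquare (B ^ 2 * T)) : IsSquare T := by
  obtain ⟨r, hr⟩ := h
  have h1 : B ^ 2 ∣ r ^ 2 := ⟨T, by rw [sq r, ← hr]⟩
  have h2 : B ∣ r := (Nat.pow_dvd_pow_iff two_ne_zero).1 h1
  obtain ⟨s, rfl⟩ := h2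
  refine ⟨s, ?_⟩
  have h3 : B ^ 2 * T = B ^ 2 * (s * s) := by rw [hr]; ring
  exact Nat.eq_of_mul_eq_mul_left (by positivity) h3

theorem t_BG : S_BG := by
  classical
  intro k A N W hN0 hW0
  rcases Nat.eq_zero_or_pos k with rfl | hk
  · rw [pow_zero]
    have h0 : (((tup (2 * 0) A).filter fun a => IsSquare (∏ i, N (a i))).card : ℝ) ≤
        ((tup (2 * 0) A).card : ℝ) := by
      exact_mod_cast card_filter_le _ _
    refine h0.trans (le_of_eq ?_)
    unfold tup
    rw [Fintype.card_piFinset]
    simp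
  choose t b htb hsf using fun a => Nat.sq_mul_squarefree (N a)
  have hb0 : ∀ a ∈ A, 0 < b a := by
    intro a ha
    rcases Nat.eq_zero_or_pos (b a) with h | h
    · have h1 := htb a
      rw [h] at h1
      have h2 := hN0 a ha
      rw [← h1] at h2
      simp at h2
    · exact h
  set Q : Finset ℕ := A.biUnion fun a => (t a).primeFactors with hQd
  have hQ : ∀ p ∈ Q, p.Prime := by
    intro p hp
    rw [hQd, mem_biUnion] at hp
    obtain ⟨a, -, ha⟩ := hp
    exact Nat.prime_of_mem_primeFactors ha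
  set c : Finset ℕ → ℝ := fun S => ((A.filter fun a => (t a).primeFactors = S).card : ℝ) with hc
  have hmaps : ∀ a ∈ A, (t a).primeFactors ∈ Q.powerset := by
    intro a ha
    rw [mem_powerset]
    exact subset_biUnion_of_mem (fun a => (t a).primeFactors) ha
  have hW : ∀ T, bonW Q c T = ∑ a ∈ A, (-1 : ℝ) ^ ((t a).primeFactors ∩ T).card := by
    intro T
    unfold bonW
    rw [← sum_fiberwise_of_maps_to hmaps]
    refine sum_congr rfl fun S _ => ?_
    have h1 : ∑ a ∈ A with (t a).primeFactors = S, (-1 : ℝ) ^ ((t a).primeFactors ∩ T).card =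
        ∑ a ∈ A with (t a).primeFactors = S, (-1 : ℝ) ^ (S ∩ T).card := by
      refine sum_congr rfl fun a ha => ?_
      rw [mem_filter] at ha
      rw [ha.2]
    rw [h1, sum_const, nsmul_eq_mul]
  have hk4 : (1 : ℝ) ≤ 4 * (k : ℝ) ^ 2 := by
    have h1 : (1 : ℝ) ≤ k := by exact_mod_cast hk
    nlinarith
  -- the sum of the squares
  have hsq : ∑ S ∈ Q.powerset, c S ^ 2 ≤ (PP A N : ℝ) := by
    set P : Finset (ℕ × ℕ) := (A ×ˢ A).filter fun x => (t x.1).primeFactors = (t x.2).primeFactors with hP
    have hm : ∀ x ∈ P, (t x.1).primeFactors ∈ Q.powerset := by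
      intro x hx
      rw [hP, mem_filter, mem_product] at hx
      exact hmaps _ hx.1.1
    have h1 : (P.card : ℝ) = ∑ S ∈ Q.powerset, c S ^ 2 := by
      rw [card_eq_sum_card_fiberwise hm]
      push_cast
      refine sum_congr rfl fun S _ => ?_
      have h2 : (P.filter fun x => (t x.1).primeFactors = S) =
          (A.filter fun a => (t a).primeFactors = S) ×ˢ (A.filter fun a => (t a).primeFactors = S) := by
        ext x
        simp only [hP, mem_filter, mem_product]
        constructor
        · rintro ⟨⟨⟨h3, h4⟩, h5⟩, h6⟩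
          exact ⟨⟨h3, h6⟩, h4, h5 ▸ h6⟩
        · rintro ⟨⟨h3, h6⟩, h4, h5⟩
          exact ⟨⟨⟨h3, h4⟩, h6.trans h5.symm⟩, h6⟩
      rw [h2, card_product]
      push_cast
      rw [hc]
      ring
    rw [← h1]
    unfold PP
    have h3 : P ⊆ (A ×ˢ A).filter fun x => IsSquare (N x.1 * N x.2) := by
      intro x hx
      rw [hP, mem_filter] at hx
      rw [mem_filter]
      refine ⟨hx.1, b x.1 * b x.2 * t x.1, ?_⟩
      have h4 : t x.1 = t x.2 := by
        rw [← Nat.prod_primeFactors_of_squarefree (hsf x.1),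
          ← Nat.prod_primeFactors_of_squarefree (hsf x.2), hx.2]
      rw [← htb x.1, ← htb x.2, ← h4]
      ring
    exact_mod_cast card_le_card h3
  have hN : bonN k Q c ≤ W * PP A N := by
    have h1 : ∀ S ∈ Q.powerset, (4 * (k : ℝ) ^ 2) ^ S.card * c S ^ 2 ≤ W * c S ^ 2 := by
      intro S _
      rcases (A.filter fun a => (t a).primeFactors = S).eq_empty_or_nonempty with h2 | h2
      · have h3 : c S = 0 := by
          rw [hc]
          simp [h2]
        rw [h3]
        simp
      · obtain ⟨a, ha⟩ := h2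
        rw [mem_filter] at ha
        refine mul_le_mul_of_nonneg_right ?_ (by positivity)
        refine le_trans ?_ (hW0 a ha.1)
        refine pow_le_pow_right₀ hk4 ?_
        rw [← ha.2]
        refine card_le_card ?_
        refine Nat.primeFactors_mono ?_ (hN0 a ha.1).ne'
        rw [← htb a]
        exact Dvd.intro_left _ rfl
    have hW1 : 0 ≤ W ∨ A = ∅ := by
      rcases A.eq_empty_or_nonempty with h | ⟨a, ha⟩
      · right; exact h
      · left; exact le_trans (by positivity) (hW0 a ha)
    unfold bonN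
    refine (sum_le_sum h1).trans ?_
    rw [← mul_sum]
    rcases hW1 with h | h
    · exact mul_le_mul_of_nonneg_left hsq h
    · have h5 : ∀ S, c S = 0 := by
        intro S
        rw [hc]
        simp [h]
      have h6 : (PP A N : ℝ) = 0 := by
        unfold PP
        simp [h]
      rw [h6]
      simp [h5]
  have hgen := bon_gen k hk Q c
  have hexp : ∑ T ∈ Q.powerset, bonW Q c T ^ (2 * k) =
      ∑ x ∈ tup (2 * k) A, ∑ T ∈ Q.powerset, ∏ i, (-1 : ℝ) ^ ((t (x i)).primeFactors ∩ T).card := by
    rw [sum_comm]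
    refine sum_congr rfl fun T _ => ?_
    rw [hW]
    have h1 := prod_univ_sum (fun _ : Fin (2 * k) => A)
      (fun _ a => (-1 : ℝ) ^ ((t a).primeFactors ∩ T).card)
    rw [prod_const, card_univ, Fintype.card_fin] at h1
    exact h1
  have himp : ∀ x ∈ tup (2 * k) A, IsSquare (∏ i, N (x i)) → IsSquare (∏ i, t (x i)) := by
    intro x hx h
    unfold tup at hx
    rw [Fintype.mem_piFinset] at hx
    refine bg_isSquare (B := ∏ i, b (x i)) (prod_pos fun i _ => hb0 _ (hx i)) ?_
    rw [← prod_pow, ← prod_mul_distrib]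
    simpa only [htb] using h
  have hlow : (2 : ℝ) ^ Q.card * (((tup (2 * k) A).filter fun a => IsSquare (∏ i, N (a i))).card : ℝ) ≤
      ∑ T ∈ Q.powerset, bonW Q c T ^ (2 * k) := by
    rw [hexp]
    refine le_trans ?_ (sum_le_sum_of_subset_of_nonneg (filter_subset
      (fun a => IsSquare (∏ i, N (a i))) _) fun x _ _ =>
        (bon_char Q hQ (fun i => t (x i)) (fun i => hsf _)).1)
    rw [sum_congr rfl fun x hx => (bon_char Q hQ (fun i => t (x i)) (fun i => hsf _)).2
      (himp x (mem_filter.1 hx).1 (mem_filter.1 hx).2), sum_const, nsmul_eq_mul, mul_comm]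
  have h2 := hlow.trans hgen
  have h3 := le_of_mul_le_mul_left h2 (by positivity)
  have h4 : bonN k Q c ^ k ≤ (W * PP A N) ^ k := pow_le_pow_left₀ (bonN_nonneg _ _ _) hN k
  refine le_trans ?_ (h3.trans h4)
  apply le_of_eq
  congr!

end Pool.Agent.N282.PB
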