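import Pool.Agent.N282.PB.Stm

/-!
# Project PB: from correlations to patterns, and the squares (leaf PB/ID, helper915)
-/

set_option autoImplicit false

open Classical

namespace Pool.Agent.N282.PB

open Pool.Agent.N282.GC

namespace IDl

lemma jac_prod (s : Finset ℕ) (f : ℕ → ℤ) (d : ℕ) : jacobiSym (∏ j ∈ s, f j) d = ∏ j ∈ s, jacobiSym (f j) d := by
  induction s using Finset.induction_on with
  | empty => simp
  | insert a s ha ih => rw [Finset.prod_insert ha, Finset.prod_insert ha, jacobiSym.mul_left, ih]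

lemma isSq_iff (x y : ℕ) (hy : 0 < y) : IsSquare (x * y ^ 2) ↔ IsSquare x := by
  constructor
  · rintro ⟨z, hz⟩
    have h1 : y ^ 2 ∣ z ^ 2 := ⟨x, by rw [sq z, ← hz, mul_comm]⟩
    obtain ⟨w, hw⟩ := (Nat.pow_dvd_pow_iff (by norm_num)).1 h1
    refine ⟨w, ?_⟩
    have h2 : x * y ^ 2 = w * w * y ^ 2 := by rw [hz, hw]; ring
    exact Nat.eq_of_mul_eq_mul_right (by positivity) h2
  · rintro ⟨z, hz⟩
    exact ⟨z * y, by rw [hz]; ring⟩

lemma Nn_eq (n : ℕ) (S : Finset ℕ) (m : ℕ) (hS : S ⊆ Finset.Icc 1 n) :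
    Nn n S m = (∏ j ∈ S, (m + j)) * (∏ j ∈ Finset.Icc 1 n \ S, (m + j)) ^ 2 := by
  unfold Nn
  rw [← Finset.prod_sdiff hS, mul_comm, ← Finset.prod_pow]
  congr 1
  · refine Finset.prod_congr rfl fun j hj => ?_
    rw [if_pos hj, pow_one]
  · refine Finset.prod_congr rfl fun j hj => ?_
    rw [if_neg (Finset.mem_sdiff.1 hj).2]

end IDl

open IDl

theorem t_SQ : S_SQ := by
  intro n S m m' hS hm hm'
  have h1 : 0 < (∏ j ∈ Finset.Icc 1 n \ S, (m + j)) * ∏ j ∈ Finset.Icc 1 n \ S, (m' + j) := by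
    refine Nat.mul_pos (Finset.prod_pos fun j _ => by omega) (Finset.prod_pos fun j _ => by omega)
  have h2 : Nn n S m * Nn n S m' = ((∏ j ∈ S, (m + j)) * ∏ j ∈ S, (m' + j)) *
      ((∏ j ∈ Finset.Icc 1 n \ S, (m + j)) * ∏ j ∈ Finset.Icc 1 n \ S, (m' + j)) ^ 2 := by
    rw [Nn_eq n S m hS, Nn_eq n S m' hS]
    ring
  rw [h2]
  exact isSq_iff _ _ h1

namespace IDl

/-- the indicator of coprimality -/
noncomputable def cc (d k : ℕ) : ℝ := if Nat.Coprime k d then 1 else 0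

lemma jac_sq (d k : ℕ) (hd : 1 ≤ d) : (((jacobiSym k d : ℤ) : ℝ)) ^ 2 = cc d k := by
  unfold cc
  have : NeZero d := ⟨by omega⟩
  by_cases h : Nat.Coprime k d
  · rw [if_pos h]
    have h1 : (k : ℤ).gcd d = 1 := by
      rw [Int.gcd_natCast_natCast]
      exact h
    have h2 := jacobiSym.sq_one h1
    exact_mod_cast h2
  · rw [if_neg h]
    have h1 : (k : ℤ).gcd d ≠ 1 := by
      rw [Int.gcd_natCast_natCast]
      exact h
    have h2 := jacobiSym.eq_zero_iff_not_coprime.2 h1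
    rw [h2]
    norm_num

lemma fl_sq (d k : ℕ) (hd : 1 ≤ d) : ((fl d k : ℤ) : ℝ) ^ 2 = cc d k := by
  rw [← jac_sq d k hd]
  unfold fl
  push_cast
  rw [mul_pow, ← pow_mul, mul_comm _ 2, pow_mul]
  norm_num

lemma ind_one (d k : ℕ) (hd : 1 ≤ d) (e : ℤ) (he : e = 1 ∨ e = -1) :
    (if fl d k = e then (1 : ℝ) else 0) = (cc d k + (e : ℝ) * ((fl d k : ℤ) : ℝ)) / 2 := by
  have h1 := fl_sq d k hd
  by_cases hc : Nat.Coprime k d
  · have h2 : cc d k = 1 := by unfold cc; rw [if_pos hc]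
    rw [h2] at h1 ⊢
    have h3 : (fl d k) ^ 2 = 1 := by exact_mod_cast h1
    have h4 : (fl d k - 1) * (fl d k + 1) = 0 := by linear_combination h3
    rcases mul_eq_zero.1 h4 with h | h
    · have h5 : fl d k = 1 := by omega
      rw [h5]
      rcases he with rfl | rfl <;> norm_num
    · have h5 : fl d k = -1 := by omega
      rw [h5]
      rcases he with rfl | rfl <;> norm_num
  · have h2 : cc d k = 0 := by unfold cc; rw [if_neg hc]
    rw [h2] at h1 ⊢
    have h3 : (fl d k) ^ 2 = 0 := by exact_mod_cast h1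
    have h4 : fl d k = 0 := by simpa using h3
    rw [h4]
    rcases he with rfl | rfl <;> norm_num

lemma cc_mul (d k : ℕ) : cc d k * cc d k = cc d k := by
  unfold cc
  split_ifs <;> norm_num

/-- the value of the Jacobi symbol at `Nn n S m` -/
lemma ja_Nn (n d : ℕ) (hd : 1 ≤ d) (S : Finset ℕ) (m : ℕ) (hS : S ⊆ Finset.Icc 1 n) :
    ja (Nn n S m) d = (∏ j ∈ S, ((jacobiSym ((m + j : ℕ) : ℤ) d : ℤ) : ℝ)) *
      ∏ j ∈ Finset.Icc 1 n \ S, cc d (m + j) := by
  unfold ja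
  rw [Nn_eq n S m hS]
  have h1 : (((∏ j ∈ S, (m + j)) * (∏ j ∈ Finset.Icc 1 n \ S, (m + j)) ^ 2 : ℕ) : ℤ) =
      (∏ j ∈ S, ((m + j : ℕ) : ℤ)) * (∏ j ∈ Finset.Icc 1 n \ S, ((m + j : ℕ) : ℤ)) ^ 2 := by
    push_cast
    rfl
  rw [h1, jacobiSym.mul_left, jacobiSym.pow_left, jac_prod, jac_prod]
  push_cast
  congr 1
  rw [← Finset.prod_pow]
  refine Finset.prod_congr rfl fun j _ => ?_
  have := jac_sq d (m + j) hd
  push_cast at this
  exact this

lemma term (n d : ℕ) (hd : 1 ≤ d) (e : ℕ → ℤ) (he : ∀ j, e j = 1 ∨ e j = -1) (m : ℕ) :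
    (if ∀ j ∈ Finset.Icc 1 n, fl d (m + j) = e j then (1 : ℝ) else 0) =
      (∑ S ∈ (Finset.Icc 1 n).powerset, (∏ j ∈ S, (e j : ℝ)) *
        ((∏ j ∈ S, (-1 : ℝ) ^ (ArithmeticFunction.cardFactors (m + j))) * ja (Nn n S m) d)) / 2 ^ n := by
  have h1 : (if ∀ j ∈ Finset.Icc 1 n, fl d (m + j) = e j then (1 : ℝ) else 0) =
      ∏ j ∈ Finset.Icc 1 n, (if fl d (m + j) = e j then (1 : ℝ) else 0) := by
    by_cases h : ∀ j ∈ Finset.Icc 1 n, fl d (m + j) = e j
    · rw [if_pos h]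
      symm
      exact Finset.prod_eq_one fun j hj => by rw [if_pos (h j hj)]
    · rw [if_neg h]
      push Not at h
      obtain ⟨j, hj, hne⟩ := h
      symm
      exact Finset.prod_eq_zero hj (by rw [if_neg hne])
  rw [h1]
  have h2 : ∏ j ∈ Finset.Icc 1 n, (if fl d (m + j) = e j then (1 : ℝ) else 0) =
      (∏ j ∈ Finset.Icc 1 n, ((e j : ℝ) * ((fl d (m + j) : ℤ) : ℝ) + cc d (m + j))) / 2 ^ n := by
    have h3 : (2 : ℝ) ^ n = ∏ _j ∈ Finset.Icc 1 n, (2 : ℝ) := by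
      rw [Finset.prod_const, Nat.card_Icc]
      simp
    rw [h3, ← Finset.prod_div_distrib]
    refine Finset.prod_congr rfl fun j _ => ?_
    rw [ind_one d (m + j) hd (e j) (he j), add_comm]
  rw [h2, Finset.prod_add]
  congr 1
  refine Finset.sum_congr rfl fun S hS => ?_
  have hS' := Finset.mem_powerset.1 hS
  rw [ja_Nn n d hd S m hS']
  have h5 : ∏ j ∈ S, ((e j : ℝ) * ((fl d (m + j) : ℤ) : ℝ)) = (∏ j ∈ S, (e j : ℝ)) *
      ((∏ j ∈ S, (-1 : ℝ) ^ (ArithmeticFunction.cardFactors (m + j))) *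
        ∏ j ∈ S, ((jacobiSym ((m + j : ℕ) : ℤ) d : ℤ) : ℝ)) := by
    rw [← Finset.prod_mul_distrib, ← Finset.prod_mul_distrib]
    refine Finset.prod_congr rfl fun j _ => ?_
    unfold fl
    push_cast
    rfl
  rw [h5]
  ring

end IDl

theorem t_ID : S_ID := by
  intro n d R e τ hd he hτ hT
  -- the first count
  have h1 : (((Finset.Icc 1 R).filter fun m => ∀ j ∈ Finset.Icc 1 n, fl d (m + j) = e j).card : ℝ) =
      (∑ S ∈ (Finset.Icc 1 n).powerset, (∏ j ∈ S, (e j : ℝ)) * T n S d R) / 2 ^ n := by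
    rw [Finset.card_filter]
    push_cast
    trans (∑ m ∈ Finset.Icc 1 R, (∑ S ∈ (Finset.Icc 1 n).powerset, (∏ j ∈ S, (e j : ℝ)) *
        ((∏ j ∈ S, (-1 : ℝ) ^ (ArithmeticFunction.cardFactors (m + j))) * ja (Nn n S m) d)) / 2 ^ n)
    · refine Finset.sum_congr rfl fun m _ => ?_
      convert term n d hd e he m
    rw [← Finset.sum_div, Finset.sum_comm]
    congr 1
    refine Finset.sum_congr rfl fun S _ => ?_
    rw [← Finset.mul_sum]
    rfl
  have h2 : (((Finset.Icc 1 R).filter fun m => ∀ j ∈ Finset.Icc 1 n, Nat.Coprime (m + j) d).card : ℝ) =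
      T n ∅ d R := by
    rw [Finset.card_filter]
    push_cast
    unfold T
    refine Finset.sum_congr rfl fun m _ => ?_
    rw [ja_Nn n d hd ∅ m (Finset.empty_subset _), Finset.prod_empty, Finset.prod_empty, one_mul, one_mul,
      Finset.sdiff_empty]
    by_cases h : ∀ j ∈ Finset.Icc 1 n, Nat.Coprime (m + j) d
    · rw [if_pos h]
      symm
      exact Finset.prod_eq_one fun j hj => by unfold cc; rw [if_pos (h j hj)]
    · rw [if_neg h]
      push Not at h
      obtain ⟨j, hj, hne⟩ := h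
      symm
      exact Finset.prod_eq_zero hj (by unfold cc; rw [if_neg hne])
  rw [h1, h2, ← Finset.sum_erase_add _ _ (Finset.empty_mem_powerset (Finset.Icc 1 n)), Finset.prod_empty, one_mul,
    add_div, add_sub_cancel_right, abs_div, abs_of_pos (show (0 : ℝ) < 2 ^ n by positivity),
    div_le_iff₀ (by positivity)]
  refine (Finset.abs_sum_le_sum_abs _ _).trans ?_
  have h3 : ∀ S ∈ ((Finset.Icc 1 n).powerset.erase ∅), |(∏ j ∈ S, (e j : ℝ)) * T n S d R| ≤ τ := by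
    intro S hS
    obtain ⟨h4, h5⟩ := Finset.mem_erase.1 hS
    rw [abs_mul, Finset.abs_prod]
    have h6 : ∏ j ∈ S, |(e j : ℝ)| = 1 := by
      refine Finset.prod_eq_one fun j _ => ?_
      rcases he j with h | h <;> rw [h] <;> norm_num
    rw [h6, one_mul]
    exact hT S (Finset.mem_powerset.1 h5) (Finset.nonempty_iff_ne_empty.2 h4)
  refine (Finset.sum_le_card_nsmul _ _ _ h3).trans ?_
  rw [nsmul_eq_mul, mul_comm]
  refine mul_le_mul_of_nonneg_left ?_ hτ
  have h7 : ((Finset.Icc 1 n).powerset.erase ∅).card ≤ 2 ^ n := by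
    refine (Finset.card_le_card (Finset.erase_subset _ _)).trans ?_
    rw [Finset.card_powerset, Nat.card_Icc]
    simp
  exact_mod_cast h7

end Pool.Agent.N282.PB
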