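import Pool.Agent.N282.PB.Stm
import Pool.Agent.N282.GC.Jac

/-!
# Project PB (helper282), part MO (helper249): moments of sums with Jacobi symbols
-/

set_option autoImplicit false

open Classical

namespace Pool.Agent.N282.PB

open Pool.Agent.N282.GC

namespace MO_

theorem expd (A : Finset ℕ) (c F : ℕ → ℝ) (K : ℕ) : (∑ k ∈ A, c k * F k) ^ K =
    ∑ n ∈ tup K A, (∏ i, c (n i)) * ∏ i, F (n i) := by
  have h : (∑ k ∈ A, c k * F k) ^ K = ∏ _i : Fin K, ∑ k ∈ A, c k * F k := by
    rw [Finset.prod_const, Finset.card_univ, Fintype.card_fin]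
  rw [h, Finset.prod_univ_sum]
  unfold tup
  refine Finset.sum_congr rfl fun n _ => ?_
  rw [Finset.prod_mul_distrib]

theorem ja_prod (K : ℕ) : ∀ (f : Fin K → ℕ) (d : ℕ), ∏ i, ja (f i) d = ja (∏ i, f i) d := by
  induction K with
  | zero =>
    intro f d
    unfold ja
    simp
  | succ K ih =>
    intro f d
    rw [Fin.prod_univ_succ, Fin.prod_univ_succ, ih]
    unfold ja
    rw [Nat.cast_mul, jacobiSym.mul_left, Int.cast_mul]

theorem ja_le (a d : ℕ) : |ja a d| ≤ 1 := by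
  unfold ja
  rcases jacobiSym.trichotomy (a : ℤ) d with h | h | h <;> rw [h] <;> norm_num

theorem sum_le (P D : ℕ) (hP : 0 < P) :
    |∑ d ∈ (Finset.Icc 1 D).filter (fun d => Odd d), ja P d| ≤
      (if IsSquare P then (D : ℝ) else 0) + 4 * (P : ℝ) := by
  have hP0 : (0 : ℝ) ≤ 4 * (P : ℝ) := by positivity
  by_cases h : IsSquare P
  · rw [if_pos h]
    have h1 : |∑ d ∈ (Finset.Icc 1 D).filter (fun d => Odd d), ja P d| ≤ (D : ℝ) := by
      refine (Finset.abs_sum_le_sum_abs _ _).trans ?_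
      refine (Finset.sum_le_sum fun d _ => ja_le P d).trans ?_
      rw [Finset.sum_const, nsmul_eq_mul, mul_one]
      have h2 := Finset.card_filter_le (Finset.Icc 1 D) (fun d => Odd d)
      rw [Nat.card_Icc, Nat.add_sub_cancel] at h2
      exact_mod_cast h2
    linarith
  · rw [if_neg h, zero_add]
    exact t_JAC P D hP h

end MO_

open MO_

theorem t_MO : S_MO := by
  intro k D Y R N w hN hw
  have e1 : ∀ d, (∑ m ∈ Finset.Icc 1 R, w m * ja (N m) d) ^ (2 * k) =
      ∑ n ∈ tup (2 * k) (Finset.Icc 1 R), (∏ i, w (n i)) * ∏ i, ja (N (n i)) d :=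
    fun d => expd (Finset.Icc 1 R) w (fun m => ja (N m) d) (2 * k)
  rw [Finset.sum_congr rfl fun d _ => e1 d, Finset.sum_comm]
  have hterm : ∀ n ∈ tup (2 * k) (Finset.Icc 1 R),
      ∑ d ∈ (Finset.Icc 1 D).filter (fun d => Odd d), (∏ i, w (n i)) * ∏ i, ja (N (n i)) d ≤
      (if IsSquare (∏ i, N (n i)) then (D : ℝ) else 0) + 4 * (Y : ℝ) ^ (2 * k) := by
    intro n hn
    have hn' : ∀ i, n i ∈ Finset.Icc 1 R := fun i => (Fintype.mem_piFinset.1 hn) i
    rw [← Finset.mul_sum, Finset.sum_congr rfl fun d _ => ja_prod (2 * k) (fun i => N (n i)) d]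
    have h1 : |∏ i, w (n i)| ≤ 1 := by
      rw [Finset.abs_prod]
      exact Finset.prod_le_one (fun _ _ => abs_nonneg _) fun i _ => hw _
    have hP0 : 0 < ∏ i, N (n i) := Finset.prod_pos fun i _ => (hN _ (hn' i)).1
    have hPY : ((∏ i, N (n i) : ℕ) : ℝ) ≤ (Y : ℝ) ^ (2 * k) := by
      rw [Nat.cast_prod]
      calc ∏ i, ((N (n i) : ℕ) : ℝ) ≤ ∏ _i : Fin (2 * k), (Y : ℝ) :=
            Finset.prod_le_prod (fun _ _ => Nat.cast_nonneg _) fun i _ => by
              exact_mod_cast (hN _ (hn' i)).2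
        _ = (Y : ℝ) ^ (2 * k) := by
            rw [Finset.prod_const, Finset.card_univ, Fintype.card_fin]
    have h2 := sum_le (∏ i, N (n i)) D hP0
    refine (le_abs_self _).trans ?_
    rw [abs_mul]
    have h3 := mul_le_mul h1 h2 (abs_nonneg _) zero_le_one
    rw [one_mul] at h3
    refine h3.trans ?_
    linarith
  refine (Finset.sum_le_sum hterm).trans ?_
  rw [Finset.sum_add_distrib, ← Finset.sum_filter, Finset.sum_const, Finset.sum_const,
    nsmul_eq_mul, nsmul_eq_mul]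
  have h6 : (tup (2 * k) (Finset.Icc 1 R)).card = R ^ (2 * k) := by
    unfold tup
    rw [Fintype.card_piFinset]
    simp
  rw [h6, mul_comm _ (D : ℝ)]
  push_cast
  exact le_rfl

end Pool.Agent.N282.PB
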