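import Pool.Agent.N282.PB.Stm

set_option autoImplicit false

namespace Pool.Agent.N282.PB

theorem om_aux (B : ℝ) (hB : 1 ≤ B) (ε : ℝ) (hε : 0 < ε) : ∃ C : ℝ, 0 < C ∧ ∀ n : ℕ, 1 ≤ n →
    B ^ n.primeFactors.card ≤ C * (n : ℝ) ^ ε := by
  obtain ⟨P, hP⟩ := exists_nat_ge (B ^ (1 / ε))
  have hB0 : 0 < B := by linarith
  refine ⟨B ^ P, by positivity, ?_⟩
  intro n hn
  have hterm : ∀ p ∈ n.primeFactors, B ≤ (if p < P then B else 1) * (p : ℝ) ^ ε := by
    intro p hp
    have hpp := Nat.prime_of_mem_primeFactors hp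
    have hp1 : (1 : ℝ) ≤ p := by exact_mod_cast hpp.one_lt.le
    split_ifs with h
    · have h1 : (1 : ℝ) ≤ (p : ℝ) ^ ε := Real.one_le_rpow hp1 hε.le
      nlinarith
    · rw [one_mul]
      have h1 : B ^ (1 / ε) ≤ p := hP.trans (by exact_mod_cast not_lt.1 h)
      have h2 := Real.rpow_le_rpow (by positivity) h1 hε.le
      rwa [← Real.rpow_mul hB0.le, one_div_mul_cancel hε.ne', Real.rpow_one] at h2
  have h1 : B ^ n.primeFactors.card = ∏ _p ∈ n.primeFactors, B := by
    rw [Finset.prod_const]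
  have h2 : ∏ p ∈ n.primeFactors, (if p < P then B else 1) ≤ B ^ P := by
    rw [Finset.prod_ite, Finset.prod_const, Finset.prod_const_one, mul_one]
    refine pow_le_pow_right₀ hB ?_
    calc (n.primeFactors.filter fun p => p < P).card ≤ (Finset.range P).card :=
          Finset.card_le_card fun p hp => Finset.mem_range.2 (Finset.mem_filter.1 hp).2
      _ = P := Finset.card_range P
  have h3 : ∏ p ∈ n.primeFactors, (p : ℝ) ^ ε ≤ (n : ℝ) ^ ε := by
    rw [Real.finsetProd_rpow _ _ (fun p _ => by positivity)]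
    refine Real.rpow_le_rpow (by positivity) ?_ hε.le
    rw [← Nat.cast_prod]
    exact_mod_cast Nat.le_of_dvd (by omega) (Nat.prod_primeFactors_dvd n)
  rw [h1]
  calc ∏ _p ∈ n.primeFactors, B ≤ ∏ p ∈ n.primeFactors, ((if p < P then B else 1) * (p : ℝ) ^ ε) :=
        Finset.prod_le_prod (fun _ _ => hB0.le) hterm
    _ = (∏ p ∈ n.primeFactors, (if p < P then B else 1)) * ∏ p ∈ n.primeFactors, (p : ℝ) ^ ε :=
        Finset.prod_mul_distrib
    _ ≤ B ^ P * (n : ℝ) ^ ε := by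
        refine mul_le_mul h2 h3 ?_ (by positivity)
        exact Finset.prod_nonneg fun p _ => by positivity

theorem t_OM : S_OM := by
  intro B ε hε
  obtain ⟨C, hC, h⟩ := om_aux (max (B : ℝ) 1) (le_max_right _ _) ε hε
  refine ⟨C, hC, fun n hn => le_trans ?_ (h n hn)⟩
  exact pow_le_pow_left₀ (Nat.cast_nonneg B) (le_max_left _ _) _

end Pool.Agent.N282.PB
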