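import Pool.Agent.N282.PB.Stm

/-!
# Project PB, leaf P1: the squarefree part of `m + j₀` divides `n! ∏ (m' + j)`
-/

set_option autoImplicit false

namespace Pool.Agent.N282.PB

theorem t_P1 : S_P1 := by
  intro n S j0 m m' b u hS hj0 hm hm' hsq hu hbu
  have hu0 : u ≠ 0 := hu.ne_zero
  rw [← Nat.prod_primeFactors_of_squarefree hu]
  refine Finset.prod_primes_dvd _ (fun p hp => (Nat.prime_of_mem_primeFactors hp).prime) ?_
  intro p hp
  have hpp : p.Prime := Nat.prime_of_mem_primeFactors hp
  have hpu : p ∣ u := Nat.dvd_of_mem_primeFactors hp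
  by_cases hpn : p ≤ n
  · exact Dvd.dvd.mul_right ((hpp.dvd_factorial).2 hpn) _
  apply Dvd.dvd.mul_left
  by_contra hcon
  have hA0 : ∀ j ∈ S, m + j ≠ 0 := fun j _ => by omega
  have hB0 : (∏ j ∈ S, (m' + j)) ≠ 0 := Finset.prod_ne_zero_iff.2 fun j _ => by omega
  have hAn0 : (∏ j ∈ S, (m + j)) ≠ 0 := Finset.prod_ne_zero_iff.2 hA0
  have hb0 : b ≠ 0 := by
    rintro rfl
    have := hA0 j0 hj0
    simp at hbu
    omega
  -- exponents
  have h1 : (m + j0).factorization p = 2 * b.factorization p + 1 := by
    rw [← hbu, Nat.factorization_mul (pow_ne_zero 2 hb0) hu0, Nat.factorization_pow]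
    have h2 : u.factorization p = 1 := by
      have h3 := hu.natFactorization_le_one p
      have h4 : 0 < u.factorization p := hpp.factorization_pos_of_dvd hu0 hpu
      omega
    simp [h2]
  have hpm : p ∣ m + j0 := by
    rw [← hbu]
    exact Dvd.dvd.mul_left hpu _
  have h2 : (∏ j ∈ S, (m + j)).factorization p = 2 * b.factorization p + 1 := by
    rw [Nat.factorization_prod hA0, Finsupp.finsetSum_apply,
      ← Finset.add_sum_erase S _ hj0, h1]
    have h3 : ∑ j ∈ S.erase j0, (m + j).factorization p = 0 := by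
      apply Finset.sum_eq_zero
      intro j hj
      rw [Finset.mem_erase] at hj
      apply Nat.factorization_eq_zero_of_not_dvd
      intro hpj
      have hj1 := Finset.mem_Icc.1 (hS hj.2)
      have hj2 := Finset.mem_Icc.1 (hS hj0)
      rcases Nat.lt_or_gt_of_ne hj.1 with hlt | hlt
      · have h5 : p ∣ (m + j0) - (m + j) := Nat.dvd_sub hpm hpj
        have h6 : (m + j0) - (m + j) = j0 - j := by omega
        rw [h6] at h5
        have := Nat.le_of_dvd (by omega) h5
        omega
      · have h5 : p ∣ (m + j) - (m + j0) := Nat.dvd_sub hpj hpm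
        have h6 : (m + j) - (m + j0) = j - j0 := by omega
        rw [h6] at h5
        have := Nat.le_of_dvd (by omega) h5
        omega
    rw [h3, add_zero]
  obtain ⟨r, hr⟩ := hsq
  have hr0 : r ≠ 0 := by
    rintro rfl
    rw [mul_zero] at hr
    exact (mul_ne_zero hAn0 hB0) hr
  have h3 : ((∏ j ∈ S, (m + j)) * ∏ j ∈ S, (m' + j)).factorization p = 2 * r.factorization p := by
    rw [hr, Nat.factorization_mul hr0 hr0, Finsupp.add_apply]
    ring
  rw [Nat.factorization_mul hAn0 hB0, Finsupp.add_apply, h2,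
    Nat.factorization_eq_zero_of_not_dvd hcon] at h3
  omega

end Pool.Agent.N282.PB
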