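import Pool.Agent.N282.PB.Stm
import Pool.Agent.H510R2.Div

/-!
# Project PB: the number of solutions of a congruence (helper189)
-/

set_option autoImplicit false

open Classical

namespace Pool.Agent.N282.PB

/-- one fibre -/
theorem p2_fibre (R L : ℕ) (F : Finset ℕ) (hF : ∀ m ∈ F, m ≤ R)
    (hc : ∀ m ∈ F, ∀ m' ∈ F, m ≡ m' [MOD L]) : F.card ≤ R / L + 1 := by
  rw [← Finset.card_range (R / L + 1)]
  apply Finset.card_le_card_of_injOn (fun n => n / L)
  · intro m hm
    have := hF m (Finset.mem_coe.1 hm)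
    rw [Finset.mem_coe, Finset.mem_range]
    exact Nat.lt_succ_of_le (Nat.div_le_div_right this)
  · intro m hm m' hm' h
    have h2 : m % L = m' % L := hc m (Finset.mem_coe.1 hm) m' (Finset.mem_coe.1 hm')
    have h3 := Nat.div_add_mod m L
    have h4 := Nat.div_add_mod m' L
    simp only at h
    rw [← h3, ← h4, h, h2]

theorem p2_dvd (u x : ℕ) (hu : Squarefree u) (h : ∀ p, p.Prime → p ∣ u → p ∣ x) : u ∣ x := by
  rw [← Nat.prod_primeFactors_of_squarefree hu]
  exact Finset.prod_primes_dvd x (fun p hp => (Nat.prime_of_mem_primeFactors hp).prime)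
    fun p hp => h p (Nat.prime_of_mem_primeFactors hp) (Nat.dvd_of_mem_primeFactors hp)

theorem p2_count (n : ℕ) (S : Finset ℕ) (R u : ℕ) (hu : Squarefree u) :
    ((Finset.Icc 1 R).filter fun m => u ∣ n.factorial * ∏ j ∈ S, (m + j)).card ≤
      (n.factorial * R / u + 1) * u.divisors.card ^ S.card := by
  have hu0 : 0 < u := Nat.pos_of_ne_zero hu.ne_zero
  set F := (Finset.Icc 1 R).filter fun m => u ∣ n.factorial * ∏ j ∈ S, (m + j) with hF
  let f : ℕ → (S → ℕ) := fun m j => Nat.gcd u (m + j)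
  have h1 : F.card ≤ (n.factorial * R / u + 1) * (F.image f).card := by
    apply Finset.card_le_mul_card_image
    intro g hg
    obtain ⟨m0, hm0, rfl⟩ := Finset.mem_image.1 hg
    set L := Finset.univ.lcm (f m0) with hL
    have hL0 : 0 < L := by
      apply Nat.pos_of_ne_zero
      rw [hL, Ne, Finset.lcm_eq_zero_iff]
      rintro ⟨j, -, hj⟩
      exact (Nat.gcd_pos_of_pos_left _ hu0).ne' hj
    have huL : u ∣ n.factorial * L := by
      refine p2_dvd u _ hu fun p hp hpu => ?_
      have h2 : p ∣ n.factorial * ∏ j ∈ S, (m0 + j) := hpu.trans (Finset.mem_filter.1 hm0).2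
      rcases (hp.dvd_mul).1 h2 with h3 | h3
      · exact h3.mul_right _
      · obtain ⟨j, hj, h4⟩ := (hp.prime.dvd_finsetProd_iff _).1 h3
        have h5 : p ∣ f m0 ⟨j, hj⟩ := Nat.dvd_gcd hpu h4
        exact (h5.trans (Finset.dvd_lcm (Finset.mem_univ _))).mul_left _
    have hle : u ≤ n.factorial * L := Nat.le_of_dvd (Nat.mul_pos (Nat.factorial_pos n) hL0) huL
    have h6 := p2_fibre R L (F.filter fun m => f m = f m0)
      (fun m hm => (Finset.mem_Icc.1 (Finset.mem_filter.1 (Finset.mem_filter.1 hm).1).1).2) (by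
        intro m hm m' hm'
        have e1 := (Finset.mem_filter.1 hm).2
        have e2 := (Finset.mem_filter.1 hm').2
        rw [Nat.modEq_iff_dvd]
        have h7 : L ∣ ((m' : ℤ) - m).natAbs := by
          rw [hL]
          apply Finset.lcm_dvd
          intro j _
          have e3 : f m0 j ∣ m + j := by
            rw [← e1]
            exact Nat.gcd_dvd_right _ _
          have e4 : f m0 j ∣ m' + j := by
            rw [← e2]
            exact Nat.gcd_dvd_right _ _
          rw [← Int.natCast_dvd]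
          have e5 := dvd_sub (Int.natCast_dvd_natCast.2 e4) (Int.natCast_dvd_natCast.2 e3)
          push_cast at e5
          have e6 : ((m' : ℤ) - m) = (m' : ℤ) + (j : ℕ) - (m + (j : ℕ)) := by ring
          rw [e6]
          exact e5
        exact Int.natCast_dvd.2 h7)
    refine h6.trans (Nat.add_le_add_right ?_ 1)
    rw [Nat.le_div_iff_mul_le hu0]
    calc R / L * u ≤ R / L * (n.factorial * L) := Nat.mul_le_mul_left _ hle
      _ = n.factorial * (R / L * L) := by ring
      _ ≤ n.factorial * R := Nat.mul_le_mul_left _ (Nat.div_mul_le_self R L)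
  refine h1.trans (Nat.mul_le_mul_left _ ?_)
  have h2 : F.image f ⊆ Fintype.piFinset fun _ : S => u.divisors := by
    intro g hg
    obtain ⟨m, -, rfl⟩ := Finset.mem_image.1 hg
    rw [Fintype.mem_piFinset]
    intro j
    exact Nat.mem_divisors.2 ⟨Nat.gcd_dvd_left _ _, hu0.ne'⟩
  refine (Finset.card_le_card h2).trans (le_of_eq ?_)
  rw [Fintype.card_piFinset]
  simp

theorem t_P2 : S_P2 := by
  intro n S ε _ hε
  have hδ : 0 < ε / ((S.card : ℝ) + 1) := by positivity
  obtain ⟨C0, hC0, hd⟩ := Pool.Agent.H510R2.divisor_bound (ε / ((S.card : ℝ) + 1)) hδ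
  set δ := ε / ((S.card : ℝ) + 1) with hδd
  refine ⟨(C0 * ((n : ℝ) + 1) ^ δ) ^ S.card * n.factorial, by positivity, ?_⟩
  intro R u hR hu huR
  have hu1 : 1 ≤ u := Nat.pos_of_ne_zero hu.ne_zero
  have hR1 : (1 : ℝ) ≤ R := by exact_mod_cast hR
  have hu1' : (1 : ℝ) ≤ u := by exact_mod_cast hu1
  have h1 : (((Finset.Icc 1 R).filter fun m => u ∣ n.factorial * ∏ j ∈ S, (m + j)).card : ℝ) ≤
      (((n.factorial * R / u : ℕ) : ℝ) + 1) * (u.divisors.card : ℝ) ^ S.card := by
    exact_mod_cast p2_count n S R u hu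
  have h2 : (((n.factorial * R / u : ℕ) : ℝ) + 1) ≤ n.factorial * ((R : ℝ) / u + 1) := by
    have h3 : ((n.factorial * R / u : ℕ) : ℝ) ≤ ((n.factorial * R : ℕ) : ℝ) / u := Nat.cast_div_le
    have h4 : (1 : ℝ) ≤ n.factorial := by exact_mod_cast Nat.factorial_pos n
    push_cast at h3
    calc ((n.factorial * R / u : ℕ) : ℝ) + 1 ≤ (n.factorial : ℝ) * R / u + n.factorial := by linarith
      _ = n.factorial * ((R : ℝ) / u + 1) := by ring
  have h5 : (u.divisors.card : ℝ) ^ S.card ≤ (C0 * ((n : ℝ) + 1) ^ δ) ^ S.card * (R : ℝ) ^ ε := by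
    have h6 : (u.divisors.card : ℝ) ≤ C0 * ((n : ℝ) + 1) ^ δ * (R : ℝ) ^ δ := by
      refine (hd u hu1).trans ?_
      rw [mul_assoc, ← Real.mul_rpow (by positivity) (by positivity)]
      refine mul_le_mul_of_nonneg_left ?_ hC0.le
      refine Real.rpow_le_rpow (by positivity) ?_ hδ.le
      have h7 : (u : ℝ) ≤ R + n := by exact_mod_cast huR
      have h8 : (0 : ℝ) ≤ n := Nat.cast_nonneg n
      nlinarith
    calc (u.divisors.card : ℝ) ^ S.card ≤ (C0 * ((n : ℝ) + 1) ^ δ * (R : ℝ) ^ δ) ^ S.card :=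
          pow_le_pow_left₀ (Nat.cast_nonneg _) h6 _
      _ = (C0 * ((n : ℝ) + 1) ^ δ) ^ S.card * ((R : ℝ) ^ δ) ^ S.card := by rw [mul_pow]
      _ ≤ (C0 * ((n : ℝ) + 1) ^ δ) ^ S.card * (R : ℝ) ^ ε := by
          refine mul_le_mul_of_nonneg_left ?_ (by positivity)
          rw [← Real.rpow_natCast, ← Real.rpow_mul (by positivity)]
          refine Real.rpow_le_rpow_of_exponent_le hR1 ?_
          rw [hδd, div_mul_eq_mul_div, div_le_iff₀ (by positivity)]
          nlinarith
  calc (((Finset.Icc 1 R).filter fun m => u ∣ n.factorial * ∏ j ∈ S, (m + j)).card : ℝ)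
      ≤ (((n.factorial * R / u : ℕ) : ℝ) + 1) * (u.divisors.card : ℝ) ^ S.card := h1
    _ ≤ (n.factorial * ((R : ℝ) / u + 1)) * ((C0 * ((n : ℝ) + 1) ^ δ) ^ S.card * (R : ℝ) ^ ε) :=
        mul_le_mul h2 h5 (by positivity) (by positivity)
    _ = (C0 * ((n : ℝ) + 1) ^ δ) ^ S.card * n.factorial * (R : ℝ) ^ ε * ((R : ℝ) / u + 1) := by ring

end Pool.Agent.N282.PB
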