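import Pool.Agent.N282.PB.Stm

/-!
# The sum of the reciprocals of the squarefree parts
-/

set_option autoImplicit false

namespace Pool.Agent.N282.PB

theorem t_P3 : S_P3 := by
  intro j0 ε hε
  refine ⟨((1 : ℝ) + j0) ^ ((1 : ℝ) / 2) * ((1 + 1 / ε) * ((1 : ℝ) + j0) ^ ε), by positivity, ?_⟩
  intro R b u hR h
  have hM : 1 ≤ R + j0 := by omega
  have hpos : ∀ m ∈ Finset.Icc 1 R, 1 ≤ b m ∧ 1 ≤ u m := by
    intro m hm
    rw [Finset.mem_Icc] at hm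
    have h1 := h m
    constructor
    · rcases Nat.eq_zero_or_pos (b m) with h0 | h0
      · rw [h0] at h1
        simp at h1
        omega
      · exact h0
    · rcases Nat.eq_zero_or_pos (u m) with h0 | h0
      · rw [h0] at h1
        simp at h1
        omega
      · exact h0
  have hb : ∀ m ∈ Finset.Icc 1 R, b m ≤ Nat.sqrt (R + j0) := by
    intro m hm
    obtain ⟨h2, h3⟩ := hpos m hm
    rw [Finset.mem_Icc] at hm
    rw [Nat.le_sqrt']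
    calc b m ^ 2 = b m ^ 2 * 1 := by ring
      _ ≤ b m ^ 2 * u m := Nat.mul_le_mul_left _ h3
      _ = m + j0 := h m
      _ ≤ R + j0 := by omega
  have hu : ∀ m ∈ Finset.Icc 1 R, u m ≤ R + j0 := by
    intro m hm
    obtain ⟨h2, h3⟩ := hpos m hm
    rw [Finset.mem_Icc] at hm
    calc u m = 1 * u m := by ring
      _ ≤ b m ^ 2 * u m := Nat.mul_le_mul_right _ (Nat.one_le_pow _ _ h2)
      _ = m + j0 := h m
      _ ≤ R + j0 := by omega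
  have hinj : Set.InjOn (fun m => (b m, u m)) (Finset.Icc 1 R : Finset ℕ) := by
    intro m _ m' _ hmm
    simp only [Prod.mk.injEq] at hmm
    have h1 := h m
    have h2 := h m'
    rw [hmm.1, hmm.2, h2] at h1
    omega
  have h1 : ∑ m ∈ Finset.Icc 1 R, 1 / (u m : ℝ) ≤
      ∑ p ∈ Finset.Icc 1 (Nat.sqrt (R + j0)) ×ˢ Finset.Icc 1 (R + j0), 1 / (p.2 : ℝ) := by
    have himg : ∑ p ∈ (Finset.Icc 1 R).image (fun m => (b m, u m)), 1 / (p.2 : ℝ) =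
        ∑ m ∈ Finset.Icc 1 R, 1 / (u m : ℝ) := Finset.sum_image hinj
    rw [← himg]
    refine Finset.sum_le_sum_of_subset_of_nonneg ?_ (fun p _ _ => by positivity)
    intro p hp
    rw [Finset.mem_image] at hp
    obtain ⟨m, hm, rfl⟩ := hp
    rw [Finset.mem_product, Finset.mem_Icc, Finset.mem_Icc]
    exact ⟨⟨(hpos m hm).1, hb m hm⟩, (hpos m hm).2, hu m hm⟩
  have h2 : ∑ p ∈ Finset.Icc 1 (Nat.sqrt (R + j0)) ×ˢ Finset.Icc 1 (R + j0), 1 / (p.2 : ℝ) =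
      (Nat.sqrt (R + j0) : ℝ) * ∑ v ∈ Finset.Icc 1 (R + j0), 1 / (v : ℝ) := by
    rw [Finset.sum_product]
    simp
  have h3 : ∑ v ∈ Finset.Icc 1 (R + j0), 1 / (v : ℝ) ≤ 1 + Real.log ((R + j0 : ℕ) : ℝ) := by
    have := harmonic_le_one_add_log (R + j0)
    rw [harmonic_eq_sum_Icc] at this
    push_cast at this ⊢
    simpa [one_div] using this
  have hMr : (1 : ℝ) ≤ ((R + j0 : ℕ) : ℝ) := by exact_mod_cast hM
  have h4 : (Nat.sqrt (R + j0) : ℝ) ≤ ((R + j0 : ℕ) : ℝ) ^ ((1 : ℝ) / 2) := by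
    rw [← Real.sqrt_eq_rpow]
    exact Real.nat_sqrt_le_real_sqrt
  have h5 : 1 + Real.log ((R + j0 : ℕ) : ℝ) ≤ (1 + 1 / ε) * ((R + j0 : ℕ) : ℝ) ^ ε := by
    have e1 := Real.log_le_rpow_div (x := ((R + j0 : ℕ) : ℝ)) (by linarith) hε
    have e2 : (1 : ℝ) ≤ ((R + j0 : ℕ) : ℝ) ^ ε := Real.one_le_rpow hMr hε.le
    have e3 : (1 + 1 / ε) * ((R + j0 : ℕ) : ℝ) ^ ε =
        ((R + j0 : ℕ) : ℝ) ^ ε + ((R + j0 : ℕ) : ℝ) ^ ε / ε := by ring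
    rw [e3]
    linarith
  have hMle : ((R + j0 : ℕ) : ℝ) ≤ (1 + (j0 : ℝ)) * R := by
    have : (1 : ℝ) ≤ R := by exact_mod_cast hR
    have h0 : (0 : ℝ) ≤ j0 := Nat.cast_nonneg _
    push_cast
    nlinarith
  have hR0 : (0 : ℝ) < R := by exact_mod_cast hR
  have hj : (0 : ℝ) ≤ 1 + (j0 : ℝ) := by positivity
  have hMnn : (0 : ℝ) ≤ ((R + j0 : ℕ) : ℝ) := by positivity
  have h6 : ((R + j0 : ℕ) : ℝ) ^ ((1 : ℝ) / 2) ≤
      (1 + (j0 : ℝ)) ^ ((1 : ℝ) / 2) * (R : ℝ) ^ ((1 : ℝ) / 2) := by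
    rw [← Real.mul_rpow hj hR0.le]
    exact Real.rpow_le_rpow hMnn hMle (by norm_num)
  have h7 : ((R + j0 : ℕ) : ℝ) ^ ε ≤ (1 + (j0 : ℝ)) ^ ε * (R : ℝ) ^ ε := by
    rw [← Real.mul_rpow hj hR0.le]
    exact Real.rpow_le_rpow hMnn hMle hε.le
  have h8 : (R : ℝ) ^ ((1 : ℝ) / 2 + ε) = (R : ℝ) ^ ((1 : ℝ) / 2) * (R : ℝ) ^ ε :=
    Real.rpow_add hR0 _ _
  have hε1 : 0 ≤ 1 + 1 / ε := by positivity
  rw [h8]
  calc ∑ m ∈ Finset.Icc 1 R, 1 / (u m : ℝ)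
      ≤ (Nat.sqrt (R + j0) : ℝ) * ∑ v ∈ Finset.Icc 1 (R + j0), 1 / (v : ℝ) := h1.trans h2.le
    _ ≤ ((R + j0 : ℕ) : ℝ) ^ ((1 : ℝ) / 2) * ((1 + 1 / ε) * ((R + j0 : ℕ) : ℝ) ^ ε) := by
        refine mul_le_mul h4 (h3.trans h5) ?_ (by positivity)
        exact Finset.sum_nonneg fun v _ => by positivity
    _ ≤ ((1 + (j0 : ℝ)) ^ ((1 : ℝ) / 2) * (R : ℝ) ^ ((1 : ℝ) / 2)) *
        ((1 + 1 / ε) * ((1 + (j0 : ℝ)) ^ ε * (R : ℝ) ^ ε)) := by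
        refine mul_le_mul h6 (mul_le_mul_of_nonneg_left h7 hε1) (by positivity) (by positivity)
    _ = _ := by ring

end Pool.Agent.N282.PB
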