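import Pool.Agent.N282.PB.Stm

set_option autoImplicit false

open Classical

namespace Pool.Agent.N282.PB

open Pool.Agent.N282.GC

theorem t_PR (h1 : S_P1) (h2 : S_P2) (h3 : S_P3) : S_PR := by
  intro n S ε hS hSne hε
  obtain ⟨j0, hj0⟩ := hSne
  obtain ⟨C2, hC2, k2⟩ := h2 n S (ε / 2) hS (half_pos hε)
  obtain ⟨C3, hC3, k3⟩ := h3 j0 (ε / 2) (half_pos hε)
  choose u b hub husf using fun m : ℕ => Nat.sq_mul_squarefree (m + j0)
  have hjn : j0 ≤ n := (Finset.mem_Icc.1 (hS hj0)).2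
  refine ⟨C2 * (C3 + 1), by positivity, fun R hR => ?_⟩
  have hR1 : (1 : ℝ) ≤ R := by exact_mod_cast hR
  have hR0 : (0 : ℝ) < R := by linarith
  have e1 : PP (Finset.Icc 1 R) (fun m => ∏ j ∈ S, (m + j)) ≤
      ∑ m ∈ Finset.Icc 1 R, ((Finset.Icc 1 R).filter fun m' => u m ∣ n.factorial * ∏ j ∈ S, (m' + j)).card := by
    unfold PP
    rw [Finset.card_filter, Finset.sum_product]
    refine Finset.sum_le_sum fun m hm => ?_
    rw [← Finset.card_filter]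
    refine Finset.card_le_card fun m' hm' => ?_
    rw [Finset.mem_filter] at hm' ⊢
    exact ⟨hm'.1, h1 n S j0 m m' (b m) (u m) hS hj0 (Finset.mem_Icc.1 hm).1 (Finset.mem_Icc.1 hm'.1).1 hm'.2 (husf m)
      (hub m)⟩
  have e2 : (PP (Finset.Icc 1 R) (fun m => ∏ j ∈ S, (m + j)) : ℝ) ≤
      ∑ m ∈ Finset.Icc 1 R, C2 * (R : ℝ) ^ (ε / 2) * ((R : ℝ) / u m + 1) := by
    refine le_trans (Nat.cast_le.2 e1) ?_
    push_cast
    refine Finset.sum_le_sum fun m hm => ?_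
    refine k2 R (u m) hR (husf m) ?_
    rw [Finset.mem_Icc] at hm
    have hb : 1 ≤ b m ^ 2 := by
      rcases Nat.eq_zero_or_pos (b m ^ 2) with h | h
      · exfalso
        have := hub m
        rw [h, zero_mul] at this
        omega
      · exact h
    have := hub m
    nlinarith
  refine e2.trans ?_
  have e3 := k3 R b u hR hub
  rw [← Finset.mul_sum, Finset.sum_add_distrib]
  have e4 : ∑ m ∈ Finset.Icc 1 R, (R : ℝ) / u m = R * ∑ m ∈ Finset.Icc 1 R, 1 / (u m : ℝ) := by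
    rw [Finset.mul_sum]
    refine Finset.sum_congr rfl fun m _ => ?_
    ring
  have e5 : ∑ _m ∈ Finset.Icc 1 R, (1 : ℝ) = R := by simp
  rw [e4, e5]
  have e6 : (R : ℝ) * (R : ℝ) ^ (1 / 2 + ε / 2) = (R : ℝ) ^ (3 / 2 + ε / 2) := by
    rw [← Real.rpow_one_add' hR0.le (by positivity)]
    congr 1
    ring
  have e7 : (R : ℝ) ≤ (R : ℝ) ^ (3 / 2 + ε / 2) := by
    have := Real.rpow_le_rpow_of_exponent_le hR1 (show (1 : ℝ) ≤ 3 / 2 + ε / 2 by linarith)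
    rwa [Real.rpow_one] at this
  have e8 : (R : ℝ) ^ (ε / 2) * (R : ℝ) ^ (3 / 2 + ε / 2) = (R : ℝ) ^ (3 / 2 + ε) := by
    rw [← Real.rpow_add hR0]
    congr 1
    ring
  calc C2 * (R : ℝ) ^ (ε / 2) * (R * ∑ m ∈ Finset.Icc 1 R, 1 / (u m : ℝ) + R)
      ≤ C2 * (R : ℝ) ^ (ε / 2) * (R * (C3 * (R : ℝ) ^ (1 / 2 + ε / 2)) + (R : ℝ) ^ (3 / 2 + ε / 2)) := by
        gcongr
    _ = C2 * (C3 + 1) * ((R : ℝ) ^ (ε / 2) * (R : ℝ) ^ (3 / 2 + ε / 2)) := by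
        rw [show (R : ℝ) * (C3 * (R : ℝ) ^ (1 / 2 + ε / 2)) = C3 * (R * (R : ℝ) ^ (1 / 2 + ε / 2)) by ring, e6]
        ring
    _ = _ := by rw [e8]

end Pool.Agent.N282.PB
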