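import Pool.Agent.N282.PB.Res
import Pool.Agent.N282.PB.Pr
import Pool.Agent.N282.PB.BG
import Pool.Agent.N282.PB.MO
import Pool.Agent.N282.PB.OM
import Pool.Agent.N282.PB.P1
import Pool.Agent.N282.PB.P2
import Pool.Agent.N282.PB.P3
import Pool.Agent.N282.PB.ID

set_option autoImplicit false

open Classical

namespace Pool.Agent.N282.PB

theorem all (n : ℕ) (ε A : ℝ)
    (hε : 0 < ε) (hA : 0 < A) : ∃ c C : ℝ, 0 < c ∧ 0 < C ∧ ∀ D R0 : ℕ, 1 ≤ R0 →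
    (((Finset.Icc 1 D).filter fun d => Odd d ∧ ¬ ∀ R : ℕ, R0 ≤ R → (R : ℝ) ≤ (D : ℝ) ^ c → ∀ e : ℕ → ℤ,
      (∀ j, e j = 1 ∨ e j = -1) → |(occ n d R e : ℝ) - cop n d R / 2 ^ n| ≤ (R : ℝ) ^ (3 / 4 + ε)).card : ℝ) ≤
        C * D * (R0 : ℝ) ^ (-A) ∧
    ((R0 : ℝ) ≤ (D : ℝ) ^ c →
      (((Finset.Icc 1 D).filter fun q => q.Prime ∧ ∃ e : ℕ → ℤ, (∀ j, e j = 1 ∨ e j = -1) ∧
        ∀ m ∈ Finset.Icc 1 R0, ∃ j ∈ Finset.Icc 1 n, fl q (m + j) ≠ e j).card : ℝ) ≤ C * D * (R0 : ℝ) ^ (-A)) :=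
  R_main t_BG t_MO t_OM (t_PR t_P1 t_P2 t_P3) t_SQ t_ID n ε A hε hA

end Pool.Agent.N282.PB
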