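import Pool.Agent.N282.PB.Stm

set_option autoImplicit false

open Classical

namespace Pool.Agent.N282.PB

open Pool.Agent.N282.GC

theorem Nn_le (n : ℕ) (S : Finset ℕ) (m R : ℕ) (hm : m ≤ R) (hR : 1 ≤ R) : Nn n S m ≤ ((n + 1) * R) ^ (2 * n) := by
  unfold Nn
  calc ∏ j ∈ Finset.Icc 1 n, (m + j) ^ (if j ∈ S then 1 else 2) ≤ ∏ _j ∈ Finset.Icc 1 n, ((n + 1) * R) ^ 2 := by
        refine Finset.prod_le_prod' fun j hj => ?_
        rw [Finset.mem_Icc] at hj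
        have h1 : m + j ≤ (n + 1) * R := by nlinarith
        have h2 : 1 ≤ (n + 1) * R := by nlinarith
        split_ifs
        · rw [pow_one, pow_two]
          nlinarith
        · exact Nat.pow_le_pow_left h1 2
    _ = _ := by
        rw [Finset.prod_const, Nat.card_Icc, Nat.add_sub_cancel, ← pow_mul]

theorem Nn_pos (n : ℕ) (S : Finset ℕ) (m : ℕ) : 1 ≤ Nn n S m ∨ m = 0 := by
  left
  unfold Nn
  have h : 0 < ∏ j ∈ Finset.Icc 1 n, (m + j) ^ (if j ∈ S then 1 else 2) := by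
    refine Finset.prod_pos fun j hj => ?_
    rw [Finset.mem_Icc] at hj
    have : 0 < m + j := by omega
    positivity
  exact h

theorem F_one (hBG : S_BG) (hMO : S_MO) (hOM : S_OM) (hPR : S_PR) (hSQ : S_SQ) (n : ℕ) (S : Finset ℕ)
    (hS : S ⊆ Finset.Icc 1 n) (hne : S.Nonempty) (ε : ℝ) (hε : 0 < ε) (k : ℕ) (hk : 1 ≤ k) :
    ∃ C : ℝ, 0 < C ∧ ∀ D R : ℕ, 1 ≤ R → (R : ℝ) ^ ((4 * n + 2) * k) ≤ D →
    ((((Finset.Icc 1 D).filter (fun d => Odd d)).filter fun d => (R : ℝ) ^ (3 / 4 + ε) < |T n S d R|).card : ℝ) ≤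
      C * D * (R : ℝ) ^ (-(k * ε)) := by
  set ε' : ℝ := ε / (4 * (n + 1)) with hε'
  have hε'0 : 0 < ε' := by positivity
  obtain ⟨CO, hCO, kO⟩ := hOM (4 * k ^ 2) ε' hε'0
  obtain ⟨CP, hCP, kP⟩ := hPR n S (ε / 2) hS hne (half_pos hε)
  set B : ℝ := (((n : ℝ) + 1) ^ (2 * n)) ^ ε' with hB
  have hB0 : 0 < B := by positivity
  refine ⟨(CO * B * CP) ^ k + 4 * ((n : ℝ) + 1) ^ (4 * n * k), by positivity, fun D R hR hD => ?_⟩
  have hR1 : (1 : ℝ) ≤ R := by exact_mod_cast hR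
  have hR0 : (0 : ℝ) < R := by linarith
  have hD0 : (0 : ℝ) ≤ D := Nat.cast_nonneg _
  set Y : ℕ := ((n + 1) * R) ^ (2 * n) with hY
  set w : ℕ → ℝ := fun m => ∏ j ∈ S, (-1 : ℝ) ^ (ArithmeticFunction.cardFactors (m + j)) with hw
  have hw1 : ∀ m, |w m| ≤ 1 := by
    intro m
    rw [hw]
    simp only [Finset.abs_prod, abs_pow, abs_neg, abs_one, one_pow, Finset.prod_const_one, le_refl]
  have hN : ∀ m ∈ Finset.Icc 1 R, 1 ≤ Nn n S m ∧ Nn n S m ≤ Y := by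
    intro m hm
    rw [Finset.mem_Icc] at hm
    refine ⟨?_, Nn_le n S m R hm.2 hR⟩
    rcases Nn_pos n S m with h | h
    · exact h
    · omega
  have hmo := hMO k D Y R (Nn n S) w hN hw1
  -- the weight
  set W : ℝ := CO * B * (R : ℝ) ^ (ε / 2) with hW
  have hYr : (Y : ℝ) = ((n : ℝ) + 1) ^ (2 * n) * (R : ℝ) ^ (2 * n) := by
    rw [hY]
    push_cast
    rw [mul_pow]
  have hYe : (Y : ℝ) ^ ε' ≤ B * (R : ℝ) ^ (ε / 2) := by
    rw [hYr, Real.mul_rpow (by positivity) (by positivity)]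
    refine mul_le_mul_of_nonneg_left ?_ hB0.le
    rw [← Real.rpow_natCast, ← Real.rpow_mul hR0.le]
    refine Real.rpow_le_rpow_of_exponent_le hR1 ?_
    push_cast
    rw [hε']
    have hn1 : (0 : ℝ) < (n : ℝ) + 1 := by positivity
    rw [mul_div_assoc', div_le_div_iff₀ (by positivity) (by norm_num)]
    nlinarith
  have hWa : ∀ a ∈ Finset.Icc 1 R, (4 * (k : ℝ) ^ 2) ^ (Nn n S a).primeFactors.card ≤ W := by
    intro a ha
    obtain ⟨h1, h2⟩ := hN a ha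
    have h3 := kO (Nn n S a) h1
    push_cast at h3
    refine h3.trans ?_
    rw [hW, mul_assoc]
    refine mul_le_mul_of_nonneg_left ?_ hCO.le
    refine le_trans ?_ hYe
    exact Real.rpow_le_rpow (Nat.cast_nonneg _) (by exact_mod_cast h2) hε'0.le
  have hbg := hBG k (Finset.Icc 1 R) (Nn n S) W (fun a ha => (hN a ha).1) hWa
  have hPP : PP (Finset.Icc 1 R) (Nn n S) = PP (Finset.Icc 1 R) (fun m => ∏ j ∈ S, (m + j)) := by
    unfold PP
    congr 1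
    refine Finset.filter_congr fun t ht => ?_
    rw [Finset.mem_product, Finset.mem_Icc, Finset.mem_Icc] at ht
    exact hSQ n S t.1 t.2 hS ht.1.1 ht.2.1
  rw [hPP] at hbg
  have hW0 : 0 ≤ W := by positivity
  have hWP : W * (PP (Finset.Icc 1 R) (fun m => ∏ j ∈ S, (m + j)) : ℝ) ≤ CO * B * CP * (R : ℝ) ^ (3 / 2 + ε) := by
    refine (mul_le_mul_of_nonneg_left (kP R hR) hW0).trans (le_of_eq ?_)
    rw [hW]
    have : (R : ℝ) ^ (3 / 2 + ε) = (R : ℝ) ^ (ε / 2) * (R : ℝ) ^ (3 / 2 + ε / 2) := by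
      rw [← Real.rpow_add hR0]
      congr 1
      ring
    rw [this]
    ring
  have htup : (((tup (2 * k) (Finset.Icc 1 R)).filter fun a => IsSquare (∏ i, Nn n S (a i))).card : ℝ) ≤
      (CO * B * CP) ^ k * ((R : ℝ) ^ (3 / 2 + ε)) ^ k := by
    refine hbg.trans ?_
    rw [← mul_pow]
    exact pow_le_pow_left₀ (by positivity) hWP _
  have hRk : (1 : ℝ) ≤ ((R : ℝ) ^ (3 / 2 + ε)) ^ k := one_le_pow₀ (Real.one_le_rpow hR1 (by positivity))
  have hsec : (R : ℝ) ^ (2 * k) * (4 * (Y : ℝ) ^ (2 * k)) ≤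
      4 * ((n : ℝ) + 1) ^ (4 * n * k) * D * ((R : ℝ) ^ (3 / 2 + ε)) ^ k := by
    have h1 : (R : ℝ) ^ (2 * k) * (4 * (Y : ℝ) ^ (2 * k)) =
        4 * ((n : ℝ) + 1) ^ (4 * n * k) * (R : ℝ) ^ ((4 * n + 2) * k) := by
      rw [hYr, mul_pow, ← pow_mul, ← pow_mul]
      rw [show 2 * n * (2 * k) = 4 * n * k by ring]
      rw [show (4 * n + 2) * k = 2 * k + 4 * n * k by ring, pow_add]
      ring
    rw [h1]
    calc 4 * ((n : ℝ) + 1) ^ (4 * n * k) * (R : ℝ) ^ ((4 * n + 2) * k) ≤ 4 * ((n : ℝ) + 1) ^ (4 * n * k) * D :=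
          mul_le_mul_of_nonneg_left hD (by positivity)
      _ ≤ _ := le_mul_of_one_le_right (by positivity) hRk
  have hmom : ∑ d ∈ (Finset.Icc 1 D).filter (fun d => Odd d), (T n S d R) ^ (2 * k) ≤
      ((CO * B * CP) ^ k + 4 * ((n : ℝ) + 1) ^ (4 * n * k)) * D * ((R : ℝ) ^ (3 / 2 + ε)) ^ k := by
    refine le_trans hmo ?_
    calc _ ≤ D * ((CO * B * CP) ^ k * ((R : ℝ) ^ (3 / 2 + ε)) ^ k) +
          4 * ((n : ℝ) + 1) ^ (4 * n * k) * D * ((R : ℝ) ^ (3 / 2 + ε)) ^ k :=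
          add_le_add (mul_le_mul_of_nonneg_left htup hD0) hsec
      _ = _ := by ring
  set τ : ℝ := (R : ℝ) ^ (3 / 4 + ε) with hτ
  have hτ0 : 0 < τ := by positivity
  have hmk : ((((Finset.Icc 1 D).filter (fun d => Odd d)).filter fun d => τ < |T n S d R|).card : ℝ) * τ ^ (2 * k) ≤
      ∑ d ∈ (Finset.Icc 1 D).filter (fun d => Odd d), T n S d R ^ (2 * k) := by
    calc ((((Finset.Icc 1 D).filter (fun d => Odd d)).filter fun d => τ < |T n S d R|).card : ℝ) * τ ^ (2 * k)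
        = ∑ d ∈ ((Finset.Icc 1 D).filter (fun d => Odd d)).filter fun d => τ < |T n S d R|, τ ^ (2 * k) := by
          rw [Finset.sum_const, nsmul_eq_mul]
      _ ≤ ∑ d ∈ ((Finset.Icc 1 D).filter (fun d => Odd d)).filter fun d => τ < |T n S d R|, T n S d R ^ (2 * k) := by
          refine Finset.sum_le_sum fun d hd => ?_
          have h1 := (Finset.mem_filter.1 hd).2
          rw [← Even.pow_abs (even_two_mul k) (T n S d R)]
          exact pow_le_pow_left₀ hτ0.le h1.le _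
      _ ≤ _ := Finset.sum_le_sum_of_subset_of_nonneg (Finset.filter_subset _ _) fun _ _ _ =>
          Even.pow_nonneg (even_two_mul k) _
  have hfin := hmk.trans hmom
  have hτ2 : τ ^ (2 * k) = ((R : ℝ) ^ (3 / 2 + ε)) ^ k * (R : ℝ) ^ (k * ε) := by
    rw [hτ, ← Real.rpow_natCast, ← Real.rpow_mul hR0.le, ← Real.rpow_natCast ((R : ℝ) ^ (3 / 2 + ε)),
      ← Real.rpow_mul hR0.le, ← Real.rpow_add hR0]
    congr 1
    push_cast
    ring
  rw [hτ2] at hfin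
  have hRp : 0 < (R : ℝ) ^ (k * ε) := by positivity
  have hRq : 0 < ((R : ℝ) ^ (3 / 2 + ε)) ^ k := by positivity
  rw [Real.rpow_neg hR0.le, ← div_eq_mul_inv, le_div_iff₀ hRp]
  refine le_of_mul_le_mul_right ?_ hRq
  refine le_trans (le_of_eq ?_) hfin
  ring

theorem F_main (hBG : S_BG) (hMO : S_MO) (hOM : S_OM) (hPR : S_PR) (hSQ : S_SQ) (n : ℕ) (ε A : ℝ) (hε : 0 < ε)
    (hA : 0 < A) : ∃ c0 : ℝ, 0 < c0 ∧ ∀ c : ℝ, 0 < c → c ≤ c0 → ∃ C : ℝ, 0 < C ∧ ∀ D R0 : ℕ, 1 ≤ R0 →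
    (((Finset.Icc 1 D).filter fun d => Odd d ∧ ∃ R : ℕ, R0 ≤ R ∧ (R : ℝ) ≤ (D : ℝ) ^ c ∧ ∃ S ⊆ Finset.Icc 1 n,
      S.Nonempty ∧ (R : ℝ) ^ (3 / 4 + ε) < |T n S d R|).card : ℝ) ≤ C * D * (R0 : ℝ) ^ (-A) := by
  set k : ℕ := ⌈(A + 2) / ε⌉₊ + 1 with hk
  have hk1 : 1 ≤ k := by omega
  have hk0 : (0 : ℝ) < k := by exact_mod_cast hk1
  have hkε : A + 2 ≤ k * ε := by
    have h1 : (A + 2) / ε ≤ k := by
      rw [hk]
      push_cast
      have := Nat.le_ceil ((A + 2) / ε)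
      linarith
    rwa [div_le_iff₀ hε] at h1
  have hex : ∀ S : Finset ℕ, ∃ C : ℝ, 0 < C ∧ (S ⊆ Finset.Icc 1 n → S.Nonempty → ∀ D R : ℕ, 1 ≤ R →
      (R : ℝ) ^ ((4 * n + 2) * k) ≤ D →
      ((((Finset.Icc 1 D).filter (fun d => Odd d)).filter fun d => (R : ℝ) ^ (3 / 4 + ε) < |T n S d R|).card : ℝ) ≤
        C * D * (R : ℝ) ^ (-(k * ε))) := by
    intro S
    by_cases h1 : S ⊆ Finset.Icc 1 n
    · by_cases h2 : S.Nonempty
      · obtain ⟨C, hC, h⟩ := F_one hBG hMO hOM hPR hSQ n S h1 h2 ε hε k hk1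
        exact ⟨C, hC, fun _ _ => h⟩
      · exact ⟨1, one_pos, fun _ h => absurd h h2⟩
    · exact ⟨1, one_pos, fun h => absurd h h1⟩
  choose C1 hC1 hone using hex
  have hs2 : Summable fun i : ℕ => 1 / (i : ℝ) ^ 2 := Real.summable_one_div_nat_pow.2 (by norm_num : 1 < 2)
  set S2 : ℝ := ∑' i : ℕ, 1 / (i : ℝ) ^ 2 with hS2
  have hS2p : 0 ≤ S2 := tsum_nonneg fun _ => by positivity
  set P : Finset (Finset ℕ) := (Finset.Icc 1 n).powerset.filter fun S => S.Nonempty with hP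
  set CS : ℝ := ∑ S ∈ P, C1 S with hCS
  have hCS0 : 0 ≤ CS := Finset.sum_nonneg fun S _ => (hC1 S).le
  have hK0 : (0 : ℝ) < (4 * n + 2) * k := by positivity
  refine ⟨1 / ((4 * n + 2) * k), by positivity, fun c hc hcc => ⟨(CS + 1) * (S2 + 1), by positivity, fun D R0 hR0 => ?_⟩⟩
  rcases Nat.eq_zero_or_pos D with hD | hD
  · subst hD
    simp
  have hDr : (1 : ℝ) ≤ D := by exact_mod_cast hD
  have hD0 : (0 : ℝ) < D := by linarith
  have hR00 : (0 : ℝ) < R0 := by exact_mod_cast hR0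
  set X : ℕ := ⌊(D : ℝ) ^ c⌋₊ with hX
  have hXD : (X : ℝ) ≤ (D : ℝ) ^ c := Nat.floor_le (by positivity)
  have hpow : ∀ x : ℕ, x ≤ X → (x : ℝ) ^ ((4 * n + 2) * k) ≤ D := by
    intro x hx
    have h1 : (x : ℝ) ≤ (D : ℝ) ^ (1 / ((4 * n + 2) * k) : ℝ) :=
      le_trans (by exact_mod_cast hx) (hXD.trans (Real.rpow_le_rpow_of_exponent_le hDr hcc))
    calc (x : ℝ) ^ ((4 * n + 2) * k) ≤ ((D : ℝ) ^ (1 / ((4 * n + 2) * k) : ℝ)) ^ ((4 * n + 2) * k) :=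
          pow_le_pow_left₀ (Nat.cast_nonneg _) h1 _
      _ = D := by
          rw [← Real.rpow_natCast, ← Real.rpow_mul hD0.le]
          push_cast
          rw [one_div, inv_mul_cancel₀ hK0.ne', Real.rpow_one]
  set O := (Finset.Icc 1 D).filter (fun d => Odd d) with hO
  have hsub : ((Finset.Icc 1 D).filter fun d => Odd d ∧ ∃ R : ℕ, R0 ≤ R ∧ (R : ℝ) ≤ (D : ℝ) ^ c ∧
      ∃ S ⊆ Finset.Icc 1 n, S.Nonempty ∧ (R : ℝ) ^ (3 / 4 + ε) < |T n S d R|) ⊆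
      (Finset.Icc R0 X).biUnion fun R => P.biUnion fun S => O.filter fun d => (R : ℝ) ^ (3 / 4 + ε) < |T n S d R| := by
    intro d hd
    rw [Finset.mem_filter] at hd
    obtain ⟨hd1, hd2, R, h1, h2, S, h3, h4, h5⟩ := hd
    rw [Finset.mem_biUnion]
    refine ⟨R, Finset.mem_Icc.2 ⟨h1, Nat.le_floor h2⟩, ?_⟩
    rw [Finset.mem_biUnion]
    refine ⟨S, Finset.mem_filter.2 ⟨Finset.mem_powerset.2 h3, h4⟩, ?_⟩
    rw [Finset.mem_filter, hO, Finset.mem_filter]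
    exact ⟨⟨hd1, hd2⟩, h5⟩
  have hcard := (Finset.card_le_card hsub).trans (Finset.card_biUnion_le.trans
      (Finset.sum_le_sum fun R _ => Finset.card_biUnion_le))
  have hcard' : (((Finset.Icc 1 D).filter fun d => Odd d ∧ ∃ R : ℕ, R0 ≤ R ∧ (R : ℝ) ≤ (D : ℝ) ^ c ∧
      ∃ S ⊆ Finset.Icc 1 n, S.Nonempty ∧ (R : ℝ) ^ (3 / 4 + ε) < |T n S d R|).card : ℝ) ≤
      ∑ R ∈ Finset.Icc R0 X, ∑ S ∈ P, ((O.filter fun d => (R : ℝ) ^ (3 / 4 + ε) < |T n S d R|).card : ℝ) := by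
    exact_mod_cast hcard
  refine hcard'.trans ?_
  have hx : ∀ R ∈ Finset.Icc R0 X, ∑ S ∈ P, ((O.filter fun d => (R : ℝ) ^ (3 / 4 + ε) < |T n S d R|).card : ℝ) ≤
      (CS * D * (R0 : ℝ) ^ (-A)) * (1 / (R : ℝ) ^ 2) := by
    intro R hRm
    rw [Finset.mem_Icc] at hRm
    have hR1 : 1 ≤ R := by omega
    have hRr : (1 : ℝ) ≤ R := by exact_mod_cast hR1
    have hRp : (0 : ℝ) < R := by linarith
    have h2 : (R : ℝ) ^ (-(k * ε)) ≤ (R0 : ℝ) ^ (-A) * (1 / (R : ℝ) ^ 2) := by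
      have h3 : (R : ℝ) ^ (-(k * ε)) ≤ (R : ℝ) ^ (-A) * (R : ℝ) ^ (-2 : ℝ) := by
        rw [← Real.rpow_add hRp]
        exact Real.rpow_le_rpow_of_exponent_le hRr (by linarith)
      have h4 : (R : ℝ) ^ (-A) ≤ (R0 : ℝ) ^ (-A) :=
        Real.rpow_le_rpow_of_nonpos hR00 (by exact_mod_cast hRm.1) (by linarith)
      have h5 : (R : ℝ) ^ (-2 : ℝ) = 1 / (R : ℝ) ^ 2 := by
        rw [Real.rpow_neg hRp.le, one_div]
        norm_num
      refine h3.trans ?_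
      rw [h5]
      exact mul_le_mul_of_nonneg_right h4 (by positivity)
    calc ∑ S ∈ P, ((O.filter fun d => (R : ℝ) ^ (3 / 4 + ε) < |T n S d R|).card : ℝ)
        ≤ ∑ S ∈ P, C1 S * D * ((R0 : ℝ) ^ (-A) * (1 / (R : ℝ) ^ 2)) := by
          refine Finset.sum_le_sum fun S hS => ?_
          rw [hP, Finset.mem_filter, Finset.mem_powerset] at hS
          refine (hone S hS.1 hS.2 D R hR1 (hpow R hRm.2)).trans ?_
          have := (hC1 S).le
          exact mul_le_mul_of_nonneg_left h2 (by positivity)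
      _ = _ := by
          rw [← Finset.sum_mul, ← Finset.sum_mul]
          ring
  refine (Finset.sum_le_sum hx).trans ?_
  rw [← Finset.mul_sum]
  have h1 : ∑ R ∈ Finset.Icc R0 X, 1 / (R : ℝ) ^ 2 ≤ S2 := hs2.sum_le_tsum _ fun _ _ => by positivity
  have hRA : 0 ≤ (R0 : ℝ) ^ (-A) := by positivity
  calc (CS * D * (R0 : ℝ) ^ (-A)) * ∑ R ∈ Finset.Icc R0 X, 1 / (R : ℝ) ^ 2
      ≤ ((CS + 1) * D * (R0 : ℝ) ^ (-A)) * (S2 + 1) := by
        refine mul_le_mul ?_ (by linarith) (Finset.sum_nonneg fun _ _ => by positivity) (by positivity)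
        have : (0 : ℝ) ≤ D * (R0 : ℝ) ^ (-A) := by positivity
        nlinarith
    _ = _ := by ring

end Pool.Agent.N282.PB
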