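import Pool.Agent.N282.PB.Fin

set_option autoImplicit false

open Classical

namespace Pool.Agent.N282.PB

open Pool.Agent.N282.GC

noncomputable def occ (n d R : ℕ) (e : ℕ → ℤ) : ℕ :=
  ((Finset.Icc 1 R).filter fun m => ∀ j ∈ Finset.Icc 1 n, fl d (m + j) = e j).card

noncomputable def cop (n d R : ℕ) : ℕ :=
  ((Finset.Icc 1 R).filter fun m => ∀ j ∈ Finset.Icc 1 n, Nat.Coprime (m + j) d).card

theorem R_main (hBG : S_BG) (hMO : S_MO) (hOM : S_OM) (hPR : S_PR) (hSQ : S_SQ) (hID : S_ID) (n : ℕ) (ε A : ℝ)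
    (hε : 0 < ε) (hA : 0 < A) : ∃ c C : ℝ, 0 < c ∧ 0 < C ∧ ∀ D R0 : ℕ, 1 ≤ R0 →
    (((Finset.Icc 1 D).filter fun d => Odd d ∧ ¬ ∀ R : ℕ, R0 ≤ R → (R : ℝ) ≤ (D : ℝ) ^ c → ∀ e : ℕ → ℤ,
      (∀ j, e j = 1 ∨ e j = -1) → |(occ n d R e : ℝ) - cop n d R / 2 ^ n| ≤ (R : ℝ) ^ (3 / 4 + ε)).card : ℝ) ≤
        C * D * (R0 : ℝ) ^ (-A) ∧
    ((R0 : ℝ) ≤ (D : ℝ) ^ c →
      (((Finset.Icc 1 D).filter fun q => q.Prime ∧ ∃ e : ℕ → ℤ, (∀ j, e j = 1 ∨ e j = -1) ∧
        ∀ m ∈ Finset.Icc 1 R0, ∃ j ∈ Finset.Icc 1 n, fl q (m + j) ≠ e j).card : ℝ) ≤ C * D * (R0 : ℝ) ^ (-A)) := by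
  set ε1 : ℝ := min ε (1 / 8) with hε1
  have hε10 : 0 < ε1 := lt_min hε (by norm_num)
  obtain ⟨c0, hc0, hF⟩ := F_main hBG hMO hOM hPR hSQ n ε1 A hε10 hA
  set c : ℝ := min c0 (1 / (A + 1)) with hc
  have hcp : 0 < c := lt_min hc0 (by positivity)
  obtain ⟨CF, hCF, hF⟩ := hF c hcp (min_le_left _ _)
  -- outside the exceptional set
  have key : ∀ D R0 d : ℕ, 1 ≤ R0 → 1 ≤ d → (¬ ∃ R : ℕ, R0 ≤ R ∧ (R : ℝ) ≤ (D : ℝ) ^ c ∧ ∃ S ⊆ Finset.Icc 1 n,
      S.Nonempty ∧ (R : ℝ) ^ (3 / 4 + ε1) < |T n S d R|) → ∀ R : ℕ, R0 ≤ R → (R : ℝ) ≤ (D : ℝ) ^ c → ∀ e : ℕ → ℤ,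
      (∀ j, e j = 1 ∨ e j = -1) → |(occ n d R e : ℝ) - cop n d R / 2 ^ n| ≤ (R : ℝ) ^ (3 / 4 + ε1) := by
    intro D R0 d hR0 hd hne R hR hRD e he
    refine hID n d R e _ hd he (by positivity) fun S hS hS' => ?_
    by_contra hlt
    exact hne ⟨R, hR, hRD, S, hS, hS', not_le.1 hlt⟩
  set B : ℝ := (2 : ℝ) ^ (8 * n) with hB
  have hB1 : 1 ≤ B := one_le_pow₀ (by norm_num)
  refine ⟨c, CF + (n + 1) + B ^ A, hcp, by positivity, fun D R0 hR0 => ?_⟩
  have hR0r : (1 : ℝ) ≤ R0 := by exact_mod_cast hR0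
  have hR0p : (0 : ℝ) < R0 := by linarith
  have hDn : (0 : ℝ) ≤ D := Nat.cast_nonneg _
  have hRA : 0 < (R0 : ℝ) ^ (-A) := by positivity
  have hDRA : 0 ≤ (D : ℝ) * (R0 : ℝ) ^ (-A) := by positivity
  have hBA : 0 < B ^ A := by positivity
  have hFD := hF D R0 hR0
  refine ⟨?_, fun hRD => ?_⟩
  · calc _ ≤ (((Finset.Icc 1 D).filter fun d => Odd d ∧ ∃ R : ℕ, R0 ≤ R ∧ (R : ℝ) ≤ (D : ℝ) ^ c ∧
          ∃ S ⊆ Finset.Icc 1 n, S.Nonempty ∧ (R : ℝ) ^ (3 / 4 + ε1) < |T n S d R|).card : ℝ) := by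
          refine Nat.cast_le.2 (Finset.card_le_card fun d hd => ?_)
          rw [Finset.mem_filter] at hd ⊢
          obtain ⟨h1, h2, h3⟩ := hd
          refine ⟨h1, h2, ?_⟩
          by_contra h4
          apply h3
          intro R hR hRD e he
          refine (key D R0 d hR0 (Finset.mem_Icc.1 h1).1 h4 R hR hRD e he).trans ?_
          have : (1 : ℝ) ≤ R := by exact_mod_cast hR0.trans hR
          refine Real.rpow_le_rpow_of_exponent_le this ?_
          have := min_le_left ε (1 / 8)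
          linarith
      _ ≤ CF * D * (R0 : ℝ) ^ (-A) := hFD
      _ ≤ _ := by
          rw [mul_assoc, mul_assoc]
          refine mul_le_mul_of_nonneg_right ?_ hDRA
          have : (0 : ℝ) ≤ n := Nat.cast_nonneg _
          linarith
  · rcases le_or_gt (R0 : ℝ) B with hsm | hbig
    · have h1 : (((Finset.Icc 1 D).filter fun q => q.Prime ∧ ∃ e : ℕ → ℤ, (∀ j, e j = 1 ∨ e j = -1) ∧
          ∀ m ∈ Finset.Icc 1 R0, ∃ j ∈ Finset.Icc 1 n, fl q (m + j) ≠ e j).card : ℝ) ≤ D := by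
        have := Finset.card_filter_le (Finset.Icc 1 D) fun q => q.Prime ∧ ∃ e : ℕ → ℤ, (∀ j, e j = 1 ∨ e j = -1) ∧
          ∀ m ∈ Finset.Icc 1 R0, ∃ j ∈ Finset.Icc 1 n, fl q (m + j) ≠ e j
        rw [Nat.card_Icc, Nat.add_sub_cancel] at this
        exact_mod_cast this
      refine h1.trans ?_
      have h2 : 1 ≤ B ^ A * (R0 : ℝ) ^ (-A) := by
        rw [Real.rpow_neg hR0p.le, ← div_eq_mul_inv, one_le_div (by positivity)]
        exact Real.rpow_le_rpow hR0p.le hsm hA.le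
      have h3 : (0 : ℝ) ≤ n := Nat.cast_nonneg _
      calc (D : ℝ) ≤ D * (B ^ A * (R0 : ℝ) ^ (-A)) := le_mul_of_one_le_right hDn h2
        _ = B ^ A * (D * (R0 : ℝ) ^ (-A)) := by ring
        _ ≤ (CF + (n + 1) + B ^ A) * (D * (R0 : ℝ) ^ (-A)) := by
            refine mul_le_mul_of_nonneg_right ?_ hDRA
            linarith
        _ = _ := by ring
    · -- the primes at most `R0 + n` and the exceptional ones
      have hR02 : 2 ≤ R0 := by
        have : (1 : ℝ) < R0 := lt_of_le_of_lt hB1 hbig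
        exact_mod_cast this
      have hsub : ((Finset.Icc 1 D).filter fun q => q.Prime ∧ ∃ e : ℕ → ℤ, (∀ j, e j = 1 ∨ e j = -1) ∧
          ∀ m ∈ Finset.Icc 1 R0, ∃ j ∈ Finset.Icc 1 n, fl q (m + j) ≠ e j) ⊆
          Finset.Icc 1 (R0 + n) ∪ ((Finset.Icc 1 D).filter fun d => Odd d ∧ ∃ R : ℕ, R0 ≤ R ∧ (R : ℝ) ≤ (D : ℝ) ^ c ∧
            ∃ S ⊆ Finset.Icc 1 n, S.Nonempty ∧ (R : ℝ) ^ (3 / 4 + ε1) < |T n S d R|) := by
        intro q hq
        rw [Finset.mem_filter] at hq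
        obtain ⟨h1, h2, e, he, hm⟩ := hq
        rw [Finset.mem_union]
        by_cases hqs : q ≤ R0 + n
        · left
          exact Finset.mem_Icc.2 ⟨(Finset.mem_Icc.1 h1).1, hqs⟩
        right
        rw [Finset.mem_filter]
        refine ⟨h1, h2.odd_of_ne_two (by omega), ?_⟩
        by_contra h4
        have h5 := key D R0 q hR0 (Finset.mem_Icc.1 h1).1 h4 R0 le_rfl hRD e he
        have h6 : occ n q R0 e = 0 := by
          unfold occ
          rw [Finset.card_eq_zero]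
          refine Finset.eq_empty_of_forall_notMem fun m hmf => ?_
          simp only [Finset.mem_filter] at hmf
          obtain ⟨hmm, hall⟩ := hmf
          obtain ⟨j, hj, hne⟩ := hm m hmm
          exact hne (hall j hj)
        have h7 : cop n q R0 = R0 := by
          unfold cop
          rw [Finset.filter_true_of_mem]
          · simp
          · intro m hmm j hj
            rw [Finset.mem_Icc] at hmm hj
            rw [Nat.coprime_comm]
            rw [h2.coprime_iff_not_dvd]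
            intro hdv
            have := Nat.le_of_dvd (by omega) hdv
            omega
        rw [h6, h7] at h5
        have h8 : (R0 : ℝ) / 2 ^ n ≤ (R0 : ℝ) ^ (3 / 4 + ε1) := by
          have h9 : |((0 : ℕ) : ℝ) - (R0 : ℝ) / 2 ^ n| = (R0 : ℝ) / 2 ^ n := by
            rw [Nat.cast_zero, zero_sub, abs_neg, abs_of_nonneg (by positivity)]
          rwa [h9] at h5
        have h10 : (R0 : ℝ) ^ (3 / 4 + ε1) ≤ (R0 : ℝ) ^ (7 / 8 : ℝ) := by
          refine Real.rpow_le_rpow_of_exponent_le hR0r ?_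
          have := min_le_right ε (1 / 8)
          linarith
        have h11 : (2 : ℝ) ^ n < (R0 : ℝ) ^ (1 / 8 : ℝ) := by
          have h12 : B ^ (1 / 8 : ℝ) = 2 ^ n := by
            rw [hB, ← Real.rpow_natCast, ← Real.rpow_mul (by norm_num)]
            push_cast
            rw [show (8 * (n : ℝ)) * (1 / 8) = n by ring, Real.rpow_natCast]
          rw [← h12]
          exact Real.rpow_lt_rpow (by positivity) hbig (by norm_num)
        have h13 : (R0 : ℝ) = (R0 : ℝ) ^ (1 / 8 : ℝ) * (R0 : ℝ) ^ (7 / 8 : ℝ) := by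
          rw [← Real.rpow_add hR0p]
          norm_num
        have h14 : (2 : ℝ) ^ n * (R0 : ℝ) ^ (7 / 8 : ℝ) < R0 := by
          calc (2 : ℝ) ^ n * (R0 : ℝ) ^ (7 / 8 : ℝ) < (R0 : ℝ) ^ (1 / 8 : ℝ) * (R0 : ℝ) ^ (7 / 8 : ℝ) :=
                mul_lt_mul_of_pos_right h11 (by positivity)
            _ = R0 := h13.symm
        have h15 : (R0 : ℝ) ≤ 2 ^ n * (R0 : ℝ) ^ (7 / 8 : ℝ) := by
          have := h8.trans h10
          rw [div_le_iff₀ (by positivity)] at this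
          linarith
        linarith
      have hcard := (Finset.card_le_card hsub).trans (Finset.card_union_le _ _)
      rw [Nat.card_Icc, Nat.add_sub_cancel] at hcard
      have hcard' : (((Finset.Icc 1 D).filter fun q => q.Prime ∧ ∃ e : ℕ → ℤ, (∀ j, e j = 1 ∨ e j = -1) ∧
          ∀ m ∈ Finset.Icc 1 R0, ∃ j ∈ Finset.Icc 1 n, fl q (m + j) ≠ e j).card : ℝ) ≤ ((R0 : ℝ) + n) +
          (((Finset.Icc 1 D).filter fun d => Odd d ∧ ∃ R : ℕ, R0 ≤ R ∧ (R : ℝ) ≤ (D : ℝ) ^ c ∧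
            ∃ S ⊆ Finset.Icc 1 n, S.Nonempty ∧ (R : ℝ) ^ (3 / 4 + ε1) < |T n S d R|).card : ℝ) := by
        exact_mod_cast hcard
      refine hcard'.trans ((add_le_add_right hFD _).trans ?_)
      have hDpos : (1 : ℝ) ≤ D := by
        rcases Nat.eq_zero_or_pos D with h | h
        · exfalso
          rw [h, Nat.cast_zero, Real.zero_rpow hcp.ne'] at hRD
          linarith
        · exact_mod_cast h
      have h1 : (R0 : ℝ) ^ (A + 1) ≤ D := by
        calc (R0 : ℝ) ^ (A + 1) ≤ ((D : ℝ) ^ (1 / (A + 1))) ^ (A + 1) := by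
              refine Real.rpow_le_rpow hR0p.le (hRD.trans ?_) (by positivity)
              exact Real.rpow_le_rpow_of_exponent_le hDpos (min_le_right _ _)
          _ = D := by
              rw [← Real.rpow_mul hDn, one_div, inv_mul_cancel₀ (by positivity), Real.rpow_one]
      have h2 : (R0 : ℝ) ≤ D * (R0 : ℝ) ^ (-A) := by
        calc (R0 : ℝ) = (R0 : ℝ) ^ (A + 1) * (R0 : ℝ) ^ (-A) := by
              rw [← Real.rpow_add hR0p, show A + 1 + -A = 1 by ring, Real.rpow_one]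
          _ ≤ _ := mul_le_mul_of_nonneg_right h1 hRA.le
      have h3 : (0 : ℝ) ≤ n := Nat.cast_nonneg _
      calc (R0 : ℝ) + n + CF * D * (R0 : ℝ) ^ (-A) ≤ (n + 1) * R0 + CF * (D * (R0 : ℝ) ^ (-A)) := by nlinarith
        _ ≤ (n + 1) * (D * (R0 : ℝ) ^ (-A)) + CF * (D * (R0 : ℝ) ^ (-A)) := by
            have := mul_le_mul_of_nonneg_left h2 (by positivity : (0 : ℝ) ≤ (n : ℝ) + 1)
            linarith
        _ ≤ (CF + (n + 1) + B ^ A) * (D * (R0 : ℝ) ^ (-A)) := by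
            have : 0 ≤ B ^ A * (D * (R0 : ℝ) ^ (-A)) := by positivity
            nlinarith
        _ = _ := by ring

end Pool.Agent.N282.PB
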