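import Pool.Agent.N282.GC.Stm

/-!
# Project PB: sign patterns of the Liouville function times real characters, statements (helper282)
-/

set_option autoImplicit false

open Classical

namespace Pool.Agent.N282.PB

open Pool.Agent.N282.GC

/-- the number of pairs with square product -/
noncomputable def PP (A : Finset ℕ) (N : ℕ → ℕ) : ℕ := ((A ×ˢ A).filter fun t => IsSquare (N t.1 * N t.2)).card

/-- the Jacobi symbol as a real number -/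
noncomputable def ja (N d : ℕ) : ℝ := ((jacobiSym N d : ℤ) : ℝ)

/-- Bonami's inequality for a family of integers -/
def S_BG : Prop := ∀ (k : ℕ) (A : Finset ℕ) (N : ℕ → ℕ) (W : ℝ), (∀ a ∈ A, 0 < N a) →
  (∀ a ∈ A, (4 * (k : ℝ) ^ 2) ^ (N a).primeFactors.card ≤ W) →
    (((tup (2 * k) A).filter fun a => IsSquare (∏ i, N (a i))).card : ℝ) ≤ (W * PP A N) ^ k

/-- moments -/
def S_MO : Prop := ∀ (k D Y R : ℕ) (N : ℕ → ℕ) (w : ℕ → ℝ), (∀ m ∈ Finset.Icc 1 R, 1 ≤ N m ∧ N m ≤ Y) →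
  (∀ m, |w m| ≤ 1) →
    ∑ d ∈ (Finset.Icc 1 D).filter (fun d => Odd d), (∑ m ∈ Finset.Icc 1 R, w m * ja (N m) d) ^ (2 * k) ≤
      D * (((tup (2 * k) (Finset.Icc 1 R)).filter fun a => IsSquare (∏ i, N (a i))).card : ℝ) +
        (R : ℝ) ^ (2 * k) * (4 * (Y : ℝ) ^ (2 * k))

/-- the number of prime factors is small -/
def S_OM : Prop := ∀ (B : ℕ) (ε : ℝ), 0 < ε → ∃ C : ℝ, 0 < C ∧ ∀ n : ℕ, 1 ≤ n →
  (B : ℝ) ^ n.primeFactors.card ≤ C * (n : ℝ) ^ ε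

/-- the squarefree part of `m + j₀` divides `n! ∏ (m' + j)` -/
def S_P1 : Prop := ∀ (n : ℕ) (S : Finset ℕ) (j0 m m' b u : ℕ), S ⊆ Finset.Icc 1 n → j0 ∈ S → 1 ≤ m → 1 ≤ m' →
  IsSquare ((∏ j ∈ S, (m + j)) * ∏ j ∈ S, (m' + j)) → Squarefree u → b ^ 2 * u = m + j0 →
    u ∣ n.factorial * ∏ j ∈ S, (m' + j)

/-- the number of solutions of a congruence -/
def S_P2 : Prop := ∀ (n : ℕ) (S : Finset ℕ) (ε : ℝ), S ⊆ Finset.Icc 1 n → 0 < ε → ∃ C : ℝ, 0 < C ∧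
  ∀ R u : ℕ, 1 ≤ R → Squarefree u → u ≤ R + n →
    (((Finset.Icc 1 R).filter fun m => u ∣ n.factorial * ∏ j ∈ S, (m + j)).card : ℝ) ≤
      C * (R : ℝ) ^ ε * ((R : ℝ) / u + 1)

/-- the sum of the reciprocals of the squarefree parts -/
def S_P3 : Prop := ∀ (j0 : ℕ) (ε : ℝ), 0 < ε → ∃ C : ℝ, 0 < C ∧ ∀ (R : ℕ) (b u : ℕ → ℕ), 1 ≤ R →
  (∀ m, b m ^ 2 * u m = m + j0) → ∑ m ∈ Finset.Icc 1 R, 1 / (u m : ℝ) ≤ C * (R : ℝ) ^ (1 / 2 + ε)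

/-- the number of pairs -/
def S_PR : Prop := ∀ (n : ℕ) (S : Finset ℕ) (ε : ℝ), S ⊆ Finset.Icc 1 n → S.Nonempty → 0 < ε → ∃ C : ℝ, 0 < C ∧
  ∀ R : ℕ, 1 ≤ R → (PP (Finset.Icc 1 R) (fun m => ∏ j ∈ S, (m + j)) : ℝ) ≤ C * (R : ℝ) ^ (3 / 2 + ε)

/-- the product of the `m + j`, `j ∈ S`, and the squares of the other ones -/
def Nn (n : ℕ) (S : Finset ℕ) (m : ℕ) : ℕ := ∏ j ∈ Finset.Icc 1 n, (m + j) ^ (if j ∈ S then 1 else 2)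

def S_SQ : Prop := ∀ (n : ℕ) (S : Finset ℕ) (m m' : ℕ), S ⊆ Finset.Icc 1 n → 1 ≤ m → 1 ≤ m' →
  (IsSquare (Nn n S m * Nn n S m') ↔ IsSquare ((∏ j ∈ S, (m + j)) * ∏ j ∈ S, (m' + j)))

/-- `λ(m) (m/d)`, `λ` the Liouville function, `(m/d)` the Jacobi symbol -/
noncomputable def fl (d m : ℕ) : ℤ := (-1) ^ (ArithmeticFunction.cardFactors m) * jacobiSym m d

/-- the correlation sums -/
noncomputable def T (n : ℕ) (S : Finset ℕ) (d R : ℕ) : ℝ :=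
  ∑ m ∈ Finset.Icc 1 R, (∏ j ∈ S, (-1 : ℝ) ^ (ArithmeticFunction.cardFactors (m + j))) * ja (Nn n S m) d

/-- from correlations to patterns -/
def S_ID : Prop := ∀ (n d R : ℕ) (e : ℕ → ℤ) (τ : ℝ), 1 ≤ d → (∀ j, e j = 1 ∨ e j = -1) → 0 ≤ τ →
  (∀ S ⊆ Finset.Icc 1 n, S.Nonempty → |T n S d R| ≤ τ) →
    |(((Finset.Icc 1 R).filter fun m => ∀ j ∈ Finset.Icc 1 n, fl d (m + j) = e j).card : ℝ) -
      (((Finset.Icc 1 R).filter fun m => ∀ j ∈ Finset.Icc 1 n, Nat.Coprime (m + j) d).card : ℝ) / 2 ^ n| ≤ τ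

end Pool.Agent.N282.PB
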